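import Pool.Agent.GAL.U11

set_option autoImplicit false

open Module GAL GAV LTD

namespace Pool.Agent.Results.MP_4aec10_nt.KMultiples

theorem count_mono {m₁ m₂ C₁ C₂ n D H : ℕ} (h1 : 1 ≤ m₁) :
    C₁ * 2 ^ n * (2 * H + 1) ^ (n - D / m₁) ≤
      max C₁ C₂ * 2 ^ n * (2 * H + 1) ^ (n - D / max m₁ m₂) := by
  have h3 : D / max m₁ m₂ ≤ D / m₁ := Nat.div_le_div_left (le_max_left _ _) (by omega)
  exact Nat.mul_le_mul (Nat.mul_le_mul_right _ (le_max_left _ _))
    (Nat.pow_le_pow_right (by omega) (by omega))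

/-- Let `k ⊆ F ⊆ ℂ` be fields, `G` a semi-abelian variety over `k`, `ρ_1, …, ρ_h` and `r` in the Lie algebra of
`G` over `ℂ`, `K` a number field of degree `D` with basis `w`, and
`v_a = r + ∑_i (∑_j a_ij w_j) ρ_i` for the integer matrices `a` with entries in `[-H, H]`.
(1) If every algebraic subgroup of `G` whose Lie algebra contains all `ρ_i` has dimension at least `δ`, then
`trdeg_F F(R, exp_G(v_a)) ≥ trdeg_F F(R) + δ` for all `a` except at most `C 2^{hD} (2H+1)^{hD-⌊D/m⌋}` of them.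
(2) If `exp_G(r)` is algebraic, then `d(exp_G(v_a)) ≤ trdeg_F F(exp_G(v_a))` with the same bound for the number
of exceptions. Here `m ≥ 1` and `C` depend only on the numerical data of `G` and on (bounds for) the
transcendence degree of `F` and the number of elements of `R`. -/
theorem result (g s N κ M μ t l : ℕ) : ∃ m C : ℕ, 1 ≤ m ∧ ∀ k F : IntermediateField ℚ ℂ,
    k ≤ F → Algebra.trdeg ℚ F ≤ (t : Cardinal) →
    ∀ (G : SAV g s N κ M μ k) (h : ℕ) (ρ : Fin h → (Fin g → ℂ) × (Fin s → ℂ))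
      (r : (Fin g → ℂ) × (Fin s → ℂ)) (K : IntermediateField ℚ ℂ) (D : ℕ) (w : Basis (Fin D) ℚ K)
      (H : ℕ),
      (∀ (R : Fin l → ℂ) (δ : ℕ), G.toGV.GenDim ρ δ →
        Set.ncard {a : Fin h → Fin D → ℤ | (∀ i j, |a i j| ≤ (H : ℤ)) ∧
          ¬ Algebra.trdeg F (IntermediateField.adjoin F (Set.range R)) + (δ : Cardinal) ≤
            Algebra.trdeg F (IntermediateField.adjoin F (Set.range R ∪
              G.toGV.rat (ptl r ρ (fun j => ((w j : K) : ℂ)) a)))} ≤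
          C * 2 ^ (h * D) * (2 * H + 1) ^ (h * D - D / m)) ∧
      ((∀ x ∈ G.toGV.rat r, IsAlgebraic ℚ x) →
        Set.ncard {a : Fin h → Fin D → ℤ | (∀ i j, |a i j| ≤ (H : ℤ)) ∧
          ¬ ((G.toGV.dd (ptl r ρ (fun j => ((w j : K) : ℂ)) a) : ℕ) : Cardinal) ≤
            Algebra.trdeg F (IntermediateField.adjoin F
              (G.toGV.rat (ptl r ρ (fun j => ((w j : K) : ℂ)) a)))} ≤
          C * 2 ^ (h * D) * (2 * H + 1) ^ (h * D - D / m)) := by
  obtain ⟨m₁, C₁, hm₁, h₁⟩ := sav_trdeg g s N κ M μ t l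
  obtain ⟨m₂, C₂, hm₂, h₂⟩ := sav_Q1 g s N κ M μ t
  refine ⟨max m₁ m₂, max C₁ C₂, le_max_of_le_left hm₁, ?_⟩
  intro k F hk hF G h ρ r K D w H
  refine ⟨fun R δ hδ => ?_, fun hr => ?_⟩
  · exact (h₁ k F hk hF R G h ρ δ hδ r K D w H).trans (count_mono hm₁)
  · refine (h₂ k F hk hF G h ρ r hr K D w H).trans ?_
    rw [max_comm m₁ m₂, max_comm C₁ C₂]
    exact count_mono hm₂

end Pool.Agent.Results.MP_4aec10_nt.KMultiples
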