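import Pool.Agent.LTD.GapU

set_option autoImplicit false

namespace LTD

theorem x1_le_one {x : ℝ} (hx : 0 ≤ x) : Real.exp (-x) ≤ 1 := by
  rw [Real.exp_le_one_iff]
  linarith

theorem x1_step (α : Type) (A σ : ℝ) (hA : 1 ≤ A) (hσ : 1 ≤ σ) (Θ : ℝ) (hΘ : 1 ≤ Θ)
    (N : ℝ) (hN4 : 4 ≤ N) (hNL : 7 + 6 * Real.log (Θ + 1 + 1) ≤ N) (θ : Option α → ℂ)
    (hθ : ∀ i, ‖θ i‖ ≤ Θ) (γ₀ Γ₀ : ℝ) (hγ₀ : 4 * (4 * σ) ≤ γ₀) (hγ₀2 : γ₀ ≤ Γ₀) (θ' : α → ℂ)
    (hcl : ∀ i, ‖θ' i - θ (some i)‖ ≤ Real.exp (-(N ^ (16 * A ^ 2 * γ₀))))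
    (hGap : Gap θ' (N ^ (4 * σ)) (N ^ γ₀)) :
    ∃ γ : ℝ, 4 * σ ≤ γ ∧ γ ≤ 4 * A * Γ₀ ∧ ∃ θ'' : Option α → ℂ,
      (∀ i, ‖θ'' i - θ i‖ ≤ Real.exp (-(N ^ (A * γ)))) ∧ Gap θ'' (N ^ σ) (N ^ γ) := by
  have hN0 : 0 < N := by linarith
  have hN1 : 1 ≤ N := by linarith
  have hγ₀0 : 0 < γ₀ := by linarith
  have hA0 : 0 < A := by linarith
  have hAA : A ≤ A ^ 2 := by nlinarith
  have hA2 : 1 ≤ A ^ 2 := by nlinarith
  set Z : ℝ := N ^ σ with hZ
  set W : ℝ := N ^ γ₀ with hW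
  have hZN : N ≤ Z := by
    calc N = N ^ (1 : ℝ) := (Real.rpow_one N).symm
      _ ≤ N ^ σ := Real.rpow_le_rpow_of_exponent_le hN1 hσ
  have hZ4 : 4 ≤ Z := hN4.trans hZN
  have hNW : N ≤ W := by
    calc N = N ^ (1 : ℝ) := (Real.rpow_one N).symm
      _ ≤ N ^ γ₀ := Real.rpow_le_rpow_of_exponent_le hN1 (by linarith)
  have hZ3 : Z ^ 3 ≤ W := by
    have e : Z ^ 3 = N ^ (σ * 3) := by
      rw [hZ, ← Real.rpow_natCast, ← Real.rpow_mul hN0.le]
      norm_num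
    rw [e]
    exact Real.rpow_le_rpow_of_exponent_le hN1 (by linarith)
  have hW1 : 1 ≤ W := hN1.trans hNW
  have hZ43 : 4 * Z ^ 3 ≤ N ^ (4 * σ) := by
    have e : N ^ (4 * σ) = Z ^ 4 := by
      rw [hZ, ← Real.rpow_natCast, ← Real.rpow_mul hN0.le]
      congr 1
      push_cast
      ring
    rw [e]
    nlinarith [pow_pos (lt_of_lt_of_le (by norm_num : (0 : ℝ) < 4) hZ4) 3]
  have hθ'b : ∀ i, ‖θ' i‖ ≤ Θ + 1 := by
    intro i
    have h1 : θ' i = θ (some i) + (θ' i - θ (some i)) := by ring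
    rw [h1]
    exact (norm_add_le _ _).trans (add_le_add (hθ _) ((hcl i).trans
      (x1_le_one (Real.rpow_nonneg hN0.le _))))
  have hgg : W ≤ N ^ (4 * A * γ₀) := by
    refine Real.rpow_le_rpow_of_exponent_le hN1 ?_
    nlinarith
  rcases gap_step (θ := θ') (v := θ none) (Θ := Θ + 1) (s := N ^ (4 * σ)) (g := W) (s₁ := Z)
    (g₁ := N ^ (4 * A * γ₀)) hGap (by linarith) (by linarith) hθ'b ((hθ none).trans (by linarith))
    (by linarith) hZ43 hgg with h1 | ⟨a, ha, h1⟩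
  · refine ⟨4 * A * γ₀, ?_, ?_, ext θ' (θ none), ?_, h1⟩
    · nlinarith
    · exact mul_le_mul_of_nonneg_left hγ₀2 (by positivity)
    · intro i
      cases i with
      | none =>
        have e : ext θ' (θ none) none - θ none = 0 := by simp [ext]
        rw [e, norm_zero]
        exact (Real.exp_pos _).le
      | some i =>
        have e : ext θ' (θ none) (some i) = θ' i := rfl
        rw [e]
        refine (hcl i).trans (Real.exp_le_exp.2 (neg_le_neg ?_))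
        refine Real.rpow_le_rpow_of_exponent_le hN1 ?_
        have e2 : A * (4 * A * γ₀) = 4 * (A ^ 2 * γ₀) := by ring
        rw [e2]
        nlinarith [mul_pos (pow_pos hA0 2) hγ₀0]
  · refine ⟨2 * γ₀, by linarith, ?_, ext θ' a, ?_, ?_⟩
    · nlinarith [mul_le_mul_of_nonneg_left hγ₀2 (by positivity : 0 ≤ 4 * A)]
    · intro i
      cases i with
      | none =>
        have e : ext θ' a none = a := rfl
        rw [e]
        refine ha.trans (Real.exp_le_exp.2 (neg_le_neg ?_))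
        set Y : ℝ := N ^ (A * (2 * γ₀)) with hY
        have eY : N ^ (4 * A * γ₀) = Y ^ 2 := by
          rw [hY, ← Real.rpow_natCast, ← Real.rpow_mul hN0.le]
          congr 1
          push_cast
          ring
        have hWY : W ≤ Y := by
          refine Real.rpow_le_rpow_of_exponent_le hN1 ?_
          nlinarith
        have hZW : Z + 1 ≤ W := by
          nlinarith [hZ3, mul_nonneg (sub_nonneg.2 hZ4) (sub_nonneg.2 hZ4),
            pow_pos (lt_of_lt_of_le (by norm_num : (0 : ℝ) < 4) hZ4) 3]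
        have hZ0 : 0 < Z := by linarith
        have hY0 : 0 < Y := by linarith
        rw [le_div_iff₀ hZ0, eY]
        nlinarith [mul_le_mul_of_nonneg_left (hZW.trans hWY) hY0.le]
      | some i =>
        have e : ext θ' a (some i) = θ' i := rfl
        rw [e]
        refine (hcl i).trans (Real.exp_le_exp.2 (neg_le_neg ?_))
        refine Real.rpow_le_rpow_of_exponent_le hN1 ?_
        have h3 : A * γ₀ ≤ A ^ 2 * γ₀ := mul_le_mul_of_nonneg_right hAA hγ₀0.le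
        nlinarith [mul_pos (pow_pos hA0 2) hγ₀0]
    · refine h1.mono le_rfl ?_
      have e : N ^ (2 * γ₀) = W ^ 2 := by
        rw [hW, ← Real.rpow_natCast, ← Real.rpow_mul hN0.le]
        congr 1
        push_cast
        ring
      rw [e]
      have hlog : 0 ≤ Real.log (Θ + 1 + 1) := Real.log_nonneg (by linarith)
      have h2 : 6 * Z ^ 3 * (1 + Real.log (Θ + 1 + 1)) ≤ 6 * W * (1 + Real.log (Θ + 1 + 1)) := by
        refine mul_le_mul_of_nonneg_right ?_ (by linarith)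
        linarith
      have h3 : W * (7 + 6 * Real.log (Θ + 1 + 1)) ≤ W * W :=
        mul_le_mul_of_nonneg_left (hNL.trans hNW) (by linarith)
      nlinarith

/-- `gap_theta` with an explicit dependence on `A`. -/
theorem gap_theta2 (τ : Type) [Finite τ] : ∃ (C : ℝ) (e : ℕ), 1 ≤ C ∧ ∀ A σ : ℝ, 1 ≤ A → 1 ≤ σ →
    ∀ Θ : ℝ, 1 ≤ Θ → ∃ N₀ : ℝ, ∀ N : ℝ, N₀ ≤ N → ∀ θ : τ → ℂ, (∀ i, ‖θ i‖ ≤ Θ) →
      ∃ γ : ℝ, 4 * σ ≤ γ ∧ γ ≤ C * σ * A ^ e ∧ ∃ θ' : τ → ℂ,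
        (∀ i, ‖θ' i - θ i‖ ≤ Real.exp (-(N ^ (A * γ)))) ∧ Gap θ' (N ^ σ) (N ^ γ) := by
  induction τ using Finite.induction_empty_option with
  | of_equiv e' ih =>
    obtain ⟨C, e, hC, hih⟩ := ih
    refine ⟨C, e, hC, fun A σ hA hσ Θ hΘ => ?_⟩
    obtain ⟨N₀, hN₀⟩ := hih A σ hA hσ Θ hΘ
    refine ⟨N₀, fun N hN θ hθ => ?_⟩
    obtain ⟨γ, h1, h2, θ', h3, h4⟩ := hN₀ N hN (θ ∘ e') fun i => hθ _
    refine ⟨γ, h1, h2, θ' ∘ e'.symm, fun i => ?_, h4.rename e'.symm⟩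
    have := h3 (e'.symm i)
    simpa using this
  | h_empty =>
    refine ⟨4, 0, by norm_num, fun A σ hA hσ Θ _ => ⟨0, fun N hN θ _ => ⟨4 * σ, le_rfl, ?_, θ,
      fun i => i.elim, ?_⟩⟩⟩
    · rw [pow_zero, mul_one]
    · exact gap_empty θ _ _ (Real.rpow_nonneg hN _)
  | h_option ih =>
    obtain ⟨C, e, hC, hih⟩ := ih
    refine ⟨16 * C * 16 ^ e, 2 * e + 1, ?_, fun A σ hA hσ Θ hΘ => ?_⟩
    · have h1 : (1 : ℝ) ≤ 16 ^ e := one_le_pow₀ (by norm_num)
      nlinarith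
    obtain ⟨N₀, hN₀⟩ := hih (16 * A ^ 2) (4 * σ) (by nlinarith) (by linarith) Θ hΘ
    refine ⟨max N₀ (max 4 (7 + 6 * Real.log (Θ + 1 + 1))), fun N hN θ hθ => ?_⟩
    have a1 : N₀ ≤ N := (le_max_left _ _).trans hN
    have a2 : 4 ≤ N := ((le_max_left _ _).trans (le_max_right _ _)).trans hN
    have a3 : 7 + 6 * Real.log (Θ + 1 + 1) ≤ N :=
      ((le_max_right _ _).trans (le_max_right _ _)).trans hN
    obtain ⟨γ₀, h1, h2, θ', h3, h4⟩ := hN₀ N a1 (fun i => θ (some i)) fun i => hθ _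
    have h5 := x1_step _ A σ hA hσ Θ hΘ N a2 a3 θ hθ γ₀ (C * (4 * σ) * (16 * A ^ 2) ^ e) h1 h2 θ'
      h3 h4
    have h6 : 4 * A * (C * (4 * σ) * (16 * A ^ 2) ^ e) = 16 * C * 16 ^ e * σ * A ^ (2 * e + 1) := by
      rw [mul_pow, ← pow_mul, pow_succ]
      ring
    rwa [h6] at h5

/-- `gap_u` with an explicit dependence on `A`. -/
theorem gap_u2 (t : ℕ) : ∃ (C₀ : ℝ) (e₀ : ℕ), 1 ≤ C₀ ∧ ∀ A : ℝ, 1 ≤ A → ∀ F : IntermediateField ℚ ℂ,
    Algebra.trdeg ℚ F ≤ t → ∀ (ι : Type) [Fintype ι] (u : ι → ℂ), (∀ i, u i ∈ F) →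
      ∃ N₀ : ℝ, ∀ N : ℝ, N₀ ≤ N → ∃ γ : ℝ, 1 ≤ γ ∧ γ ≤ C₀ * A ^ e₀ ∧ ∃ u' : ι → ℂ,
        (∀ i, ‖u' i - u i‖ ≤ Real.exp (-(N ^ (A * γ)))) ∧ Gap u' N (N ^ γ) := by
  choose C e hC hG using fun t' : ℕ => gap_theta2 (Fin t')
  obtain ⟨E, hE⟩ : ∃ E : ℕ, E = ∑ t' ∈ Finset.range (t + 1), e t' := ⟨_, rfl⟩
  obtain ⟨C₁, hC₁⟩ : ∃ C₁ : ℝ, C₁ = ∑ t' ∈ Finset.range (t + 1), C t' * 4 ^ e t' := ⟨_, rfl⟩
  have hC0 : ∀ t', 0 ≤ C t' * 4 ^ e t' := fun t' => by
    have := hC t'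
    positivity
  have hC₁0 : 0 ≤ C₁ := by
    rw [hC₁]
    exact Finset.sum_nonneg fun t' _ => hC0 t'
  refine ⟨2 * (4 + C₁), E, by linarith, fun A hA F hF ι _ u hu => ?_⟩
  have hA4 : (1 : ℝ) ≤ 4 * A := by linarith
  set Γ₁ : ℝ := (4 + C₁) * A ^ E with hΓ₁
  have hAE : 1 ≤ A ^ E := one_le_pow₀ hA
  have hGle : ∀ t' ≤ t, C t' * 1 * (4 * A) ^ e t' ≤ Γ₁ := by
    intro t' ht'
    have h1 : C t' * 4 ^ e t' ≤ C₁ := by
      rw [hC₁]
      exact Finset.single_le_sum (f := fun t' => C t' * 4 ^ e t') (fun t' _ => hC0 t')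
        (Finset.mem_range.mpr (by omega))
    have h2 : e t' ≤ E := by
      rw [hE]
      exact Finset.single_le_sum (f := fun t' => e t') (fun _ _ => Nat.zero_le _)
        (Finset.mem_range.mpr (by omega))
    have h3 : A ^ e t' ≤ A ^ E := pow_le_pow_right₀ hA h2
    rw [mul_one, mul_pow, ← mul_assoc]
    calc C t' * 4 ^ e t' * A ^ e t' ≤ C₁ * A ^ E :=
          mul_le_mul h1 h3 (by positivity) hC₁0
      _ ≤ (4 + C₁) * A ^ E := by nlinarith
  have hΓ₁4 : 4 ≤ Γ₁ := by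
    rw [hΓ₁]
    nlinarith
  obtain ⟨t', ht', θ, hθ⟩ := trdeg_data t F hF
  choose J c hJ hcJ hc using fun i => hθ (u i) (hu i)
  -- the bound p
  obtain ⟨p, hp1, hJp, hdeg, hlen⟩ : ∃ p : ℝ, 1 ≤ p ∧ (∀ i, (J i : ℝ) ≤ p) ∧
      (∀ i, ∀ j ≤ J i, ((c i j).totalDegree : ℝ) ≤ p) ∧
      (∀ i, ∑ j ∈ Finset.range (J i + 1), len (c i j) ≤ Real.exp p) := by
    have hterm : ∀ i, 0 ≤ (J i : ℝ) + ∑ j ∈ Finset.range (J i + 1),
        (((c i j).totalDegree : ℝ) + len (c i j)) := by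
      intro i
      have : 0 ≤ ∑ j ∈ Finset.range (J i + 1), (((c i j).totalDegree : ℝ) + len (c i j)) :=
        Finset.sum_nonneg fun j _ => add_nonneg (Nat.cast_nonneg _) (len_nonneg _)
      have h2 : (0 : ℝ) ≤ (J i : ℝ) := Nat.cast_nonneg _
      linarith
    have hle : ∀ i, (J i : ℝ) + ∑ j ∈ Finset.range (J i + 1),
        (((c i j).totalDegree : ℝ) + len (c i j)) ≤ 1 + ∑ i, ((J i : ℝ) +
          ∑ j ∈ Finset.range (J i + 1), (((c i j).totalDegree : ℝ) + len (c i j))) := by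
      intro i
      have := Finset.single_le_sum (f := fun i => (J i : ℝ) +
          ∑ j ∈ Finset.range (J i + 1), (((c i j).totalDegree : ℝ) + len (c i j)))
          (fun i _ => hterm i) (Finset.mem_univ i)
      linarith
    refine ⟨1 + ∑ i, ((J i : ℝ) + ∑ j ∈ Finset.range (J i + 1),
        (((c i j).totalDegree : ℝ) + len (c i j))), ?_, ?_, ?_, ?_⟩
    · have : 0 ≤ ∑ i, ((J i : ℝ) + ∑ j ∈ Finset.range (J i + 1),
        (((c i j).totalDegree : ℝ) + len (c i j))) := Finset.sum_nonneg fun i _ => hterm i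
      linarith
    · intro i
      have h1 : 0 ≤ ∑ j ∈ Finset.range (J i + 1), (((c i j).totalDegree : ℝ) + len (c i j)) :=
        Finset.sum_nonneg fun j _ => add_nonneg (Nat.cast_nonneg _) (len_nonneg _)
      have h2 := hle i
      linarith
    · intro i j hj
      have h1 : ((c i j).totalDegree : ℝ) + len (c i j) ≤
          ∑ j ∈ Finset.range (J i + 1), (((c i j).totalDegree : ℝ) + len (c i j)) :=
        Finset.single_le_sum (f := fun j => ((c i j).totalDegree : ℝ) + len (c i j))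
          (fun j _ => add_nonneg (Nat.cast_nonneg _) (len_nonneg _))
          (Finset.mem_range.mpr (by omega))
      have h2 := hle i
      have h3 := len_nonneg (c i j)
      have h4 : (0 : ℝ) ≤ (J i : ℝ) := Nat.cast_nonneg _
      linarith
    · intro i
      refine le_trans ?_ (Real.add_one_le_exp _)
      have h1 : ∑ j ∈ Finset.range (J i + 1), len (c i j) ≤
          ∑ j ∈ Finset.range (J i + 1), (((c i j).totalDegree : ℝ) + len (c i j)) :=
        Finset.sum_le_sum fun j _ => by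
          have : (0 : ℝ) ≤ ((c i j).totalDegree : ℝ) := Nat.cast_nonneg _
          linarith
      have h2 := hle i
      have h4 : (0 : ℝ) ≤ (J i : ℝ) := Nat.cast_nonneg _
      linarith
  -- root_close
  choose Ci δi hCi hδi hroot using
    fun i => root_close θ (u i) (J i) (hJ i) (c i) (hcJ i) (hc i)
  -- the bound Θ
  set Θ : ℝ := 1 + ∑ i, ‖θ i‖ + ∑ i, ‖u i‖ with hΘdef
  have hθΘ : ∀ i, ‖θ i‖ + 1 ≤ Θ := by
    intro i
    have h1 : ‖θ i‖ ≤ ∑ i, ‖θ i‖ :=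
      Finset.single_le_sum (f := fun i => ‖θ i‖) (fun _ _ => norm_nonneg _) (Finset.mem_univ i)
    have h2 : 0 ≤ ∑ i, ‖u i‖ := Finset.sum_nonneg fun _ _ => norm_nonneg _
    linarith
  have huΘ : ∀ i, ‖u i‖ + 1 ≤ Θ := by
    intro i
    have h1 : ‖u i‖ ≤ ∑ i, ‖u i‖ :=
      Finset.single_le_sum (f := fun i => ‖u i‖) (fun _ _ => norm_nonneg _) (Finset.mem_univ i)
    have h2 : 0 ≤ ∑ i, ‖θ i‖ := Finset.sum_nonneg fun _ _ => norm_nonneg _
    linarith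
  have hΘ1 : 1 ≤ Θ := by
    have h1 : 0 ≤ ∑ i, ‖u i‖ := Finset.sum_nonneg fun _ _ => norm_nonneg _
    have h2 : 0 ≤ ∑ i, ‖θ i‖ := Finset.sum_nonneg fun _ _ => norm_nonneg _
    linarith
  set M : ℕ := Fintype.card ι with hM
  set κ : ℝ := (4 * p ^ 2) ^ M with hκ
  have hp2 : 1 ≤ 4 * p ^ 2 := by nlinarith
  have hκ1 : 1 ≤ κ := one_le_pow₀ hp2
  have hκ0 : 0 < κ := by linarith
  have hlogΘ : 0 ≤ Real.log Θ := Real.log_nonneg hΘ1
  obtain ⟨N₂, hN₂⟩ := hG t' (4 * A) 1 hA4 le_rfl Θ hΘ1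
  set B : ℝ := κ ^ Γ₁ + M * (6 * p ^ 2 * κ * (1 + Real.log Θ)) with hB
  have hB0 : 0 ≤ M * (6 * p ^ 2 * κ * (1 + Real.log Θ)) := by positivity
  -- thresholds
  have hev : ∀ᶠ N : ℝ in Filter.atTop, (∀ i, Real.exp (-N) ≤ δi i) ∧
      (∀ i, p + Real.log (Ci i) ≤ N) ∧ 1 ≤ N ∧ N₂ ≤ N ∧ B ≤ N := by
    refine Filter.Eventually.and ?_ (Filter.Eventually.and ?_ (Filter.Eventually.and ?_
      (Filter.Eventually.and ?_ ?_)))
    · refine Filter.eventually_all.mpr fun i => ?_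
      have h1 : Filter.Tendsto (fun N : ℝ => Real.exp (-N)) Filter.atTop (nhds 0) :=
        Real.tendsto_exp_neg_atTop_nhds_zero
      exact (h1.eventually (gt_mem_nhds (hδi i))).mono fun N h => le_of_lt h
    · exact Filter.eventually_all.mpr fun i => Filter.eventually_ge_atTop _
    · exact Filter.eventually_ge_atTop _
    · exact Filter.eventually_ge_atTop _
    · exact Filter.eventually_ge_atTop _
  obtain ⟨N₀, hN₀⟩ := Filter.eventually_atTop.mp hev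
  refine ⟨N₀, fun N hN => ?_⟩
  obtain ⟨hδN, hpN, hN1, hN2, hBN⟩ := hN₀ N hN
  have hN0 : 0 < N := by linarith
  have hN₁N : N ≤ κ * N := by nlinarith
  have hN₁1 : 1 ≤ κ * N := by linarith
  obtain ⟨γ₁, hγ4, hγG, θ', hθ', hGap⟩ := hN₂ (κ * N) (by linarith) θ
    (fun i => by linarith [hθΘ i])
  have hγΓ : γ₁ ≤ Γ₁ := hγG.trans (hGle t' ht')
  have hγ4' : 4 ≤ γ₁ := by linarith
  have hAγ : 1 ≤ A * γ₁ := by nlinarith
  -- closeness
  set X : ℝ := N ^ (2 * A * γ₁) with hX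
  have hXN : N ≤ X := by
    calc N = N ^ (1 : ℝ) := (Real.rpow_one N).symm
      _ ≤ N ^ (2 * A * γ₁) := Real.rpow_le_rpow_of_exponent_le hN1 (by nlinarith)
  have hX0 : 0 < X := by linarith
  have hXX : X * X ≤ (κ * N) ^ (4 * A * γ₁) := by
    calc X * X = N ^ (4 * A * γ₁) := by
          rw [hX, ← Real.rpow_add hN0]
          congr 1
          ring
      _ ≤ (κ * N) ^ (4 * A * γ₁) :=
          Real.rpow_le_rpow hN0.le hN₁N (by nlinarith)
  set δ : ℝ := Real.exp (-((κ * N) ^ (4 * A * γ₁))) with hδ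
  have hδ0 : 0 ≤ δ := (Real.exp_pos _).le
  have hδN' : δ ≤ Real.exp (-N) := by
    rw [hδ]
    apply Real.exp_le_exp.mpr
    have : N ≤ X * X := by nlinarith
    linarith
  have hδ1 : δ ≤ 1 := by
    refine hδN'.trans ?_
    rw [Real.exp_le_one_iff]
    linarith
  have hr := fun i => hroot i δ hδ0 (hδN'.trans (hδN i)) θ' hθ'
  choose a ha using fun i => (hr i).2
  have hau : ∀ i, ‖a i - u i‖ ≤ Real.exp (-X) := by
    intro i
    have h1 := (ha i).2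
    have hC0 : 0 < Ci i := by linarith [hCi i]
    have hlogC : 0 ≤ Real.log (Ci i) := Real.log_nonneg (hCi i)
    have h2 : Ci i * δ ≤ Real.exp (-X) ^ J i := by
      calc Ci i * δ ≤ Real.exp (Real.log (Ci i)) * Real.exp (-(X * X)) := by
            rw [Real.exp_log hC0]
            refine mul_le_mul_of_nonneg_left ?_ hC0.le
            rw [hδ]
            exact Real.exp_le_exp.mpr (by linarith)
        _ = Real.exp (Real.log (Ci i) - X * X) := by
            rw [← Real.exp_add]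
            congr 1
        _ ≤ Real.exp ((J i : ℝ) * (-X)) := by
            apply Real.exp_le_exp.mpr
            have h3 : (p + Real.log (Ci i)) * X ≤ X * X :=
              mul_le_mul_of_nonneg_right ((hpN i).trans hXN) hX0.le
            have h4 : (J i : ℝ) * X ≤ p * X := mul_le_mul_of_nonneg_right (hJp i) hX0.le
            have h5 : Real.log (Ci i) ≤ Real.log (Ci i) * X := by
              have : 1 ≤ X := by linarith
              nlinarith
            nlinarith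
        _ = Real.exp (-X) ^ J i := by rw [← Real.exp_nat_mul]
    have h3 : ‖a i - u i‖ ^ J i ≤ Real.exp (-X) ^ J i := h1.trans h2
    have hJ0 : J i ≠ 0 := by have := hJ i; omega
    exact le_of_pow_le_pow_left₀ hJ0 (Real.exp_pos _).le h3
  have hexpX : Real.exp (-X) ≤ 1 := by
    rw [Real.exp_le_one_iff]
    linarith
  have hθ'Θ : ∀ i, ‖θ' i‖ ≤ Θ := by
    intro i
    have h1 : ‖θ' i‖ ≤ ‖θ' i - θ i‖ + ‖θ i‖ := by
      have := norm_add_le (θ' i - θ i) (θ i)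
      simpa using this
    have h2 := hθ' i
    have h3 := hθΘ i
    have h4 : ‖θ' i - θ i‖ ≤ 1 := h2.trans hδ1
    linarith
  have haΘ : ∀ i, ‖a i‖ ≤ Θ := by
    intro i
    have h1 : ‖a i‖ ≤ ‖a i - u i‖ + ‖u i‖ := by
      have := norm_add_le (a i - u i) (u i)
      simpa using this
    have h2 := (hau i).trans hexpX
    have h3 := huΘ i
    linarith
  have hmany := gap_many hGap (Real.rpow_nonneg (by linarith) _) hΘ1 hθ'Θ haΘ hp1 J c hJ hJp
    (fun i => (hr i).1) (fun i => (ha i).1) hlen hdeg N hN1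
    (by rw [Real.rpow_one])
  have hinr := hmany.rename (Sum.inr : ι → Fin t' ⊕ ι)
  have hcomp : (Sum.elim θ' a) ∘ (Sum.inr : ι → Fin t' ⊕ ι) = a := by
    funext i
    rfl
  rw [hcomp] at hinr
  refine ⟨2 * γ₁, by linarith, by linarith [hΓ₁], a, fun i => ?_, ?_⟩
  · have : A * (2 * γ₁) = 2 * A * γ₁ := by ring
    rw [this]
    exact hau i
  · refine hinr.mono le_rfl ?_
    rw [Real.rpow_one]
    have hNγ : N ≤ N ^ γ₁ := by
      calc N = N ^ (1 : ℝ) := (Real.rpow_one N).symm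
        _ ≤ N ^ γ₁ := Real.rpow_le_rpow_of_exponent_le hN1 (by linarith)
    have hNγ0 : 0 < N ^ γ₁ := by linarith
    have h1 : (κ * N) ^ γ₁ ≤ κ ^ Γ₁ * N ^ γ₁ := by
      rw [Real.mul_rpow hκ0.le hN0.le]
      exact mul_le_mul_of_nonneg_right (Real.rpow_le_rpow_of_exponent_le hκ1 hγΓ) hNγ0.le
    have h2 : (M : ℝ) * (6 * p ^ 2 * (κ * N) * (1 + Real.log Θ)) ≤
        M * (6 * p ^ 2 * κ * (1 + Real.log Θ)) * N ^ γ₁ := by
      have : (M : ℝ) * (6 * p ^ 2 * (κ * N) * (1 + Real.log Θ)) =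
          M * (6 * p ^ 2 * κ * (1 + Real.log Θ)) * N := by ring
      rw [this]
      exact mul_le_mul_of_nonneg_left hNγ hB0
    calc (κ * N) ^ γ₁ + (Fintype.card ι : ℝ) * (6 * p ^ 2 * (κ * N) * (1 + Real.log Θ))
        ≤ κ ^ Γ₁ * N ^ γ₁ + M * (6 * p ^ 2 * κ * (1 + Real.log Θ)) * N ^ γ₁ := add_le_add h1 h2
      _ = B * N ^ γ₁ := by rw [hB]; ring
      _ ≤ N ^ γ₁ * N ^ γ₁ := mul_le_mul_of_nonneg_right (hBN.trans hNγ) hNγ0.le
      _ = N ^ (2 * γ₁) := by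
          rw [← Real.rpow_add hN0]
          congr 1
          ring

end LTD
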