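import Pool.Agent.GAL.Def
import Pool.Agent.GAV.N2

set_option autoImplicit false

open LTD Module

namespace GAL

open GAV

variable {g N κ : ℕ} {k : IntermediateField ℚ ℂ}

/-- The numbers `x_1, …, x_n` have the measure of linear independence `c / H^κ`: no integral linear combination with
coefficients of absolute value at most `H`, not all zero, is smaller. -/
def Ms (κ : ℕ) {n : ℕ} (x : Fin n → ℂ) : Prop :=
  ∃ c : ℝ, 0 < c ∧ ∀ H : ℕ, 1 ≤ H → ∀ l : Fin n → ℤ, l ≠ 0 → (∀ i, |l i| ≤ (H : ℤ)) →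
    c / (H : ℝ) ^ κ ≤ ‖∑ i, (l i : ℂ) * x i‖

/-! Port of `GAL/T5.lean`: any numbers with a measure in place of elements of a number field. -/

theorem nr_exist2 (A : AV g N κ k) (ρ : Fin g → ℂ) (d nX κx : ℕ) (x : Fin nX → ℂ) (hx : Ms κx x)
    (ε' : ℝ) (hε' : 0 < ε') :
    ∃ c : ℝ, 0 < c ∧ ∀ H B : ℕ, (2 * H + 1) ^ (2 * g * d) < B ^ nX →
      ∃ e : Fin d → Fin nX → ℕ, (∀ i j, e i j < B) ∧
        NRL A ρ (fun i => ∑ j, (e i j : ℂ) * x j) H ε' (c / (B : ℝ) ^ κx) := by
  classical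
  obtain ⟨c₁, hc₁, hl⟩ := hx
  refine ⟨ε' * c₁ / 3, by positivity, fun H B hHB => ?_⟩
  have hB : 1 ≤ B := by
    by_contra h
    have h1 : B = 0 := by omega
    rcases Nat.eq_zero_or_pos nX with h2 | h2
    · rw [h2, pow_zero] at hHB
      have h3 : 1 ≤ (2 * H + 1) ^ (2 * g * d) := Nat.one_le_pow _ _ (by omega)
      omega
    · rw [h1, zero_pow (by omega)] at hHB
      omega
  have hBR : (1 : ℝ) ≤ (B : ℝ) := by exact_mod_cast hB
  have hBp : (0 : ℝ) < (B : ℝ) ^ κx := by positivity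
  set η : ℝ := ε' * c₁ / 3 / (B : ℝ) ^ κx with hη
  have hη0 : 0 < η := by positivity
  have hlow : ∀ l : Fin nX → ℤ, l ≠ 0 → (∀ i, |l i| ≤ (B : ℤ)) →
      c₁ / (B : ℝ) ^ κx ≤ ‖∑ i, (l i : ℂ) * x i‖ := by
    intro l hl0 hlB
    exact hl B hB l hl0 hlB
  by_contra hcon
  have h1 : ∀ f : Fin nX → Fin d → Fin B, ∃ a : Fin d → Fin (2 * g) → ℤ,
      (∀ i j, |a i j| ≤ (H : ℤ)) ∧ (∃ i, ε' < ‖∑ j, (a i j : ℂ) * th A j ρ‖) ∧
      ‖∑ i, (∑ j, ((f j i : ℕ) : ℂ) * x j) * ∑ j, (a i j : ℂ) * th A j ρ‖ < η := by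
    intro f
    by_contra h2
    apply hcon
    refine ⟨fun i j => (f j i : ℕ), fun i j => (f j i).isLt, fun a ha hi => ?_⟩
    by_contra h3
    exact h2 ⟨a, ha, hi, not_le.1 h3⟩
  choose G g1 g2 g3 using h1
  -- `d` is positive
  have hd : 0 < d := by
    obtain ⟨i, -⟩ := g2 (fun _ _ => ⟨0, by omega⟩)
    exact Fin.pos_iff_nonempty.2 ⟨i⟩
  -- the fibres
  have h4 : ∀ a : Fin d → Fin (2 * g) → ℤ,
      ((Finset.univ : Finset (Fin nX → Fin d → Fin B)).filter fun f => G f = a).card ≤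
        B ^ ((d - 1) * nX) := by
    intro a
    by_cases ha : ∃ i, ε' < ‖∑ j, (a i j : ℂ) * th A j ρ‖
    · obtain ⟨i₀, hi₀⟩ := ha
      refine n2_fib nX d B i₀ _ ?_
      intro f hf f' hf' hff
      rw [Finset.mem_filter] at hf hf'
      by_contra hne
      have e1 := g3 f
      have e2 := g3 f'
      rw [hf.2] at e1
      rw [hf'.2] at e2
      have e3 := hlow (fun j => ((f j i₀ : ℕ) : ℤ) - ((f' j i₀ : ℕ) : ℤ)) (by
        intro h5
        apply hne
        funext j i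
        by_cases hi : i = i₀
        · subst hi
          have h6 : ((f j i : ℕ) : ℤ) - ((f' j i : ℕ) : ℤ) = 0 := congrFun h5 j
          exact Fin.ext (by omega)
        · exact hff j i hi) (by
        intro j
        have h5 := (f j i₀).isLt
        have h6 := (f' j i₀).isLt
        show |((f j i₀ : ℕ) : ℤ) - ((f' j i₀ : ℕ) : ℤ)| ≤ (B : ℤ)
        rw [abs_le]
        omega)
      set δ : ℂ := ∑ j, (((((f j i₀ : ℕ) : ℤ) - ((f' j i₀ : ℕ) : ℤ) : ℤ)) : ℂ) *
        x j with hδ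
      have e4 : δ * (∑ j, (a i₀ j : ℂ) * th A j ρ) =
          (∑ i, (∑ j, ((f j i : ℕ) : ℂ) * x j) * ∑ j, (a i j : ℂ) * th A j ρ) -
          ∑ i, (∑ j, ((f' j i : ℕ) : ℂ) * x j) * ∑ j, (a i j : ℂ) * th A j ρ := by
        rw [← Finset.sum_sub_distrib, Finset.sum_eq_single i₀]
        · rw [← sub_mul, hδ, ← Finset.sum_sub_distrib]
          congr 1
          refine Finset.sum_congr rfl fun j _ => ?_
          push_cast
          ring
        · intro i _ hi
          rw [← sub_mul]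
          have e5 : ∑ j, ((f j i : ℕ) : ℂ) * x j =
              ∑ j, ((f' j i : ℕ) : ℂ) * x j :=
            Finset.sum_congr rfl fun j _ => by rw [hff j i hi]
          rw [e5, sub_self, zero_mul]
        · intro h
          exact absurd (Finset.mem_univ i₀) h
      have e5 : ‖δ * (∑ j, (a i₀ j : ℂ) * th A j ρ)‖ < 2 * η := by
        rw [e4]
        refine (norm_sub_le _ _).trans_lt ?_
        linarith
      rw [norm_mul] at e5
      have e6 : c₁ / (B : ℝ) ^ κx * ε' ≤ ‖δ‖ * ‖∑ j, (a i₀ j : ℂ) * th A j ρ‖ :=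
        mul_le_mul e3 hi₀.le hε'.le (norm_nonneg _)
      have e7 : c₁ / (B : ℝ) ^ κx * ε' = 3 * η := by
        rw [hη]
        field_simp
      linarith
    · have h5 : ((Finset.univ : Finset (Fin nX → Fin d → Fin B)).filter fun f => G f = a) =
          ∅ := by
        rw [Finset.filter_eq_empty_iff]
        intro f _ hf
        apply ha
        rw [← hf]
        exact g2 f
      rw [h5, Finset.card_empty]
      exact Nat.zero_le _
  have h5 : (Finset.univ : Finset (Fin nX → Fin d → Fin B)).card ≤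
      B ^ ((d - 1) * nX) * (Fintype.piFinset fun _ : Fin d => Fintype.piFinset
        fun _ : Fin (2 * g) => Finset.Icc (-(H : ℤ)) H).card := by
    refine Finset.card_le_mul_card_image_of_maps_to (f := G) ?_ _ (fun a _ => h4 a)
    intro f _
    exact Fintype.mem_piFinset.2 fun j => Fintype.mem_piFinset.2 fun x =>
      Finset.mem_Icc.2 (abs_le.1 (g1 f j x))
  rw [Finset.card_univ, Fintype.card_fun, Fintype.card_fun, Fintype.card_fin, Fintype.card_fin,
    Fintype.card_fin, Fintype.card_piFinset, Finset.prod_const, Fintype.card_piFinset,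
    Finset.prod_const, Int.card_Icc, Finset.card_univ, Finset.card_univ, Fintype.card_fin,
    Fintype.card_fin, ← pow_mul, ← pow_mul] at h5
  have h6 : ((H : ℤ) + 1 - -(H : ℤ)).toNat = 2 * H + 1 := by omega
  rw [h6] at h5
  have h7 : B ^ (d * nX) = B ^ ((d - 1) * nX) * B ^ nX := by
    rw [← pow_add]
    congr 1
    obtain ⟨d', rfl⟩ : ∃ d', d = d' + 1 := ⟨d - 1, by omega⟩
    rw [Nat.add_sub_cancel]
    ring
  rw [h7] at h5
  have h8 : 0 < B ^ ((d - 1) * nX) := Nat.pow_pos (by omega)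
  exact absurd (Nat.le_of_mul_le_mul_left h5 h8) (not_le.2 hHB)

end GAL
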