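import Pool.Agent.GAL.T7
import Pool.Agent.GALX.X1
import Pool.Agent.GALX.X2

set_option autoImplicit false

open LTD Module

namespace GAL

open GAV

/-! Port of `GAL/T7.lean`: numbers with a measure of linear independence in place of elements of a number field. -/

theorem x3_const (g q e₀ lam : ℕ) (C₀ : ℝ) (hC₀ : 1 ≤ C₀) (hg : 1 ≤ g) (hlam : 1 ≤ lam) :
    82 * q * (g * (2 * lam + 1)) * ⌈16 * (C₀ * (90 * ((g * (2 * lam + 1) : ℕ) : ℝ)) ^ e₀)⌉₊ ≤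
      max (82 * q * (3 * g) * (⌈16 * (C₀ * (270 * (g : ℝ)) ^ e₀)⌉₊)) (e₀ + 1) *
        lam ^ max (82 * q * (3 * g) * (⌈16 * (C₀ * (270 * (g : ℝ)) ^ e₀)⌉₊)) (e₀ + 1) := by
  have hl : (1 : ℝ) ≤ lam := by exact_mod_cast hlam
  have hgr : (1 : ℝ) ≤ g := by exact_mod_cast hg
  have h1 : ⌈16 * (C₀ * (90 * ((g * (2 * lam + 1) : ℕ) : ℝ)) ^ e₀)⌉₊ ≤
      ⌈16 * (C₀ * (270 * (g : ℝ)) ^ e₀)⌉₊ * lam ^ e₀ := by
    rw [Nat.ceil_le]
    have h2 : 90 * ((g * (2 * lam + 1) : ℕ) : ℝ) ≤ 270 * (g : ℝ) * lam := by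
      push_cast
      nlinarith
    have h3 : (90 * ((g * (2 * lam + 1) : ℕ) : ℝ)) ^ e₀ ≤ (270 * (g : ℝ) * lam) ^ e₀ :=
      pow_le_pow_left₀ (by positivity) h2 e₀
    calc 16 * (C₀ * (90 * ((g * (2 * lam + 1) : ℕ) : ℝ)) ^ e₀)
        ≤ 16 * (C₀ * (270 * (g : ℝ) * lam) ^ e₀) := by
          have : 0 ≤ C₀ := by linarith
          gcongr
      _ = 16 * (C₀ * (270 * (g : ℝ)) ^ e₀) * (lam : ℝ) ^ e₀ := by rw [mul_pow]; ring
      _ ≤ (⌈16 * (C₀ * (270 * (g : ℝ)) ^ e₀)⌉₊ : ℝ) * (lam : ℝ) ^ e₀ := by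
          gcongr
          exact Nat.le_ceil _
      _ = _ := by push_cast; ring
  set K : ℕ := 82 * q * (3 * g) * (⌈16 * (C₀ * (270 * (g : ℝ)) ^ e₀)⌉₊) with hK
  have h4 : g * (2 * lam + 1) ≤ 3 * g * lam := by nlinarith
  calc 82 * q * (g * (2 * lam + 1)) * ⌈16 * (C₀ * (90 * ((g * (2 * lam + 1) : ℕ) : ℝ)) ^ e₀)⌉₊
      ≤ 82 * q * (3 * g * lam) * (⌈16 * (C₀ * (270 * (g : ℝ)) ^ e₀)⌉₊ * lam ^ e₀) :=
        Nat.mul_le_mul (Nat.mul_le_mul_left _ h4) h1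
    _ = K * lam ^ (e₀ + 1) := by rw [hK]; ring
    _ ≤ max K (e₀ + 1) * lam ^ max K (e₀ + 1) :=
        Nat.mul_le_mul (le_max_left _ _) (Nat.pow_le_pow_right hlam (le_max_right _ _))

theorem ms_comp {κ n n' : ℕ} {x : Fin n → ℂ} (hx : Ms κ x) (f : Fin n' → Fin n)
    (hf : Function.Injective f) : Ms κ (x ∘ f) := by
  classical
  obtain ⟨c, hc, h⟩ := hx
  refine ⟨c, hc, fun H hH l hl hlH => ?_⟩
  have hext : ∀ i', Function.extend f l 0 (f i') = l i' := fun i' => hf.extend_apply l 0 i'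
  have h1 := h H hH (Function.extend f l 0) (fun h0 => hl (funext fun i' => by
    rw [← hext i', h0]
    rfl)) (fun i => by
    by_cases hi : ∃ i', f i' = i
    · obtain ⟨i', rfl⟩ := hi
      rw [hext]
      exact hlH i'
    · rw [Function.extend_apply' _ _ _ hi]
      simp)
  refine h1.trans (le_of_eq ?_)
  congr 1
  symm
  have h2 : ∑ i', (l i' : ℂ) * (x ∘ f) i' =
      ∑ i ∈ Finset.univ.image f, ((Function.extend f l 0 i : ℤ) : ℂ) * x i := by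
    rw [Finset.sum_image fun a _ b _ hab => hf hab]
    refine Finset.sum_congr rfl fun i' _ => ?_
    rw [hext]
    rfl
  rw [h2]
  refine Finset.sum_subset (Finset.subset_univ _) fun i _ hi => ?_
  have hi' : ¬ ∃ i', f i' = i := by
    rintro ⟨i', h3⟩
    exact hi (Finset.mem_image.2 ⟨i', Finset.mem_univ _, h3⟩)
  rw [Function.extend_apply' _ _ _ hi']
  simp

theorem sep_comp {n n' : ℕ} {x : Fin n → ℂ} (hx : Sep x) (f : Fin n' → Fin n)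
    (hf : Function.Injective f) : Sep (x ∘ f) := by
  classical
  obtain ⟨C, hC, h⟩ := hx
  refine ⟨C, hC, fun l hl => ?_⟩
  have hext : ∀ i', Function.extend f l 0 (f i') = l i' := fun i' => hf.extend_apply l 0 i'
  have hzero : ∀ i, i ∉ Finset.univ.image f → Function.extend f l 0 i = 0 := by
    intro i hi
    have hi' : ¬ ∃ i', f i' = i := by
      rintro ⟨i', h3⟩
      exact hi (Finset.mem_image.2 ⟨i', Finset.mem_univ _, h3⟩)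
    rw [Function.extend_apply' _ _ _ hi']
    rfl
  have h1 := h (Function.extend f l 0) (fun h0 => hl (funext fun i' => by
    rw [← hext i', h0]
    rfl))
  have h2 : ∑ i, |((Function.extend f l 0 i : ℤ) : ℝ)| = ∑ i', |((l i' : ℤ) : ℝ)| := by
    rw [← Finset.sum_subset (Finset.subset_univ (Finset.univ.image f)) (fun i _ hi => by
      rw [hzero i hi]
      simp), Finset.sum_image fun a _ b _ hab => hf hab]
    refine Finset.sum_congr rfl fun i' _ => ?_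
    rw [hext]
  have h3 : ∑ i, ((Function.extend f l 0 i : ℤ) : ℂ) * x i = ∑ i', (l i' : ℂ) * (x ∘ f) i' := by
    rw [← Finset.sum_subset (Finset.subset_univ (Finset.univ.image f)) (fun i _ hi => by
      rw [hzero i hi]
      simp), Finset.sum_image fun a _ b _ hab => hf hab]
    refine Finset.sum_congr rfl fun i' _ => ?_
    rw [hext]
    rfl
  rwa [h2, h3] at h1

/-- The last step with an exponential measure. -/
theorem x3_sigma (g d q : ℕ) (K' Aσ : ℝ) (hK' : 1 ≤ K') (hAσ : 0 ≤ Aσ) :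
    ∃ N₀ : ℝ, ∀ N : ℝ, N₀ ≤ N → ∀ D S' : ℕ, 1 ≤ D → 1 ≤ S' →
      (D : ℝ) ^ 8 ≤ 2 ^ 8 * N → (S' : ℝ) ^ (2 * q) ≤ 2 ^ (2 * q) * D → 1 ≤ q → ∀ Cs KX ρ B : ℝ,
      0 ≤ ρ → 1 ≤ Cs → 1 ≤ KX → 1 ≤ B → 1 ≤ d →
      Cs * d * D * (1 + 13 * (KX * B) * ρ) ^ 3 ≤ K' * (D : ℝ) ^ (40 * g * d) →
      26 * ρ / Real.exp (-(Aσ * S')) ≤ Real.exp N := by
  obtain ⟨N1, hN1⟩ := nu4_ev (26 * K' * (2 ^ 8) ^ (40 * g * d)) (40 * g * d) (1 / 2) (by norm_num)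
  obtain ⟨Q, hQ⟩ : ∃ Q : ℝ, Q = Aσ * 2 ^ (2 * q) := ⟨_, rfl⟩
  have hQ0 : 0 ≤ Q := by
    rw [hQ]
    positivity
  refine ⟨max N1 (2 ^ 56 * Q ^ 8 + 1), fun N hN D S' hD hS' h8 hS hq Cs KX ρ B hρ hCs hKX hB hd
    hG => ?_⟩
  have hDr : (1 : ℝ) ≤ D := by exact_mod_cast hD
  have hSr : (1 : ℝ) ≤ S' := by exact_mod_cast hS'
  have hdr : (1 : ℝ) ≤ d := by exact_mod_cast hd
  have hNa := (le_max_right _ _).trans hN
  have hNb := hN1 N ((le_max_left _ _).trans hN)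
  have hfin := nu3_fin Q N hQ0 hNa D hDr h8
  have hN0 : 0 ≤ N := by
    have : 0 ≤ 2 ^ 56 * Q ^ 8 := by positivity
    linarith
  have hS2 : Aσ * S' ≤ N / 2 := by
    have h1 : (S' : ℝ) ≤ 2 ^ (2 * q) * D := (le_self_pow₀ hSr (by omega)).trans hS
    have h2 : (D : ℝ) ≤ (D : ℝ) ^ 3 := le_self_pow₀ hDr (by norm_num)
    calc Aσ * S' ≤ Aσ * (2 ^ (2 * q) * D) := mul_le_mul_of_nonneg_left h1 hAσ
      _ = Q * D := by rw [hQ]; ring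
      _ ≤ Q * (D : ℝ) ^ 3 := mul_le_mul_of_nonneg_left h2 hQ0
      _ ≤ N / 16 := hfin
      _ ≤ N / 2 := by linarith
  have hρ1 : ρ ≤ K' * (D : ℝ) ^ (40 * g * d) := by
    refine le_trans ?_ hG
    have h1 : ρ ≤ 1 + 13 * (KX * B) * ρ := by
      have : 1 ≤ KX * B := one_le_mul_of_one_le_of_one_le hKX hB
      nlinarith
    have h2 : 1 ≤ 1 + 13 * (KX * B) * ρ := by
      have : 0 ≤ 13 * (KX * B) * ρ := by positivity
      linarith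
    have h3 : 1 + 13 * (KX * B) * ρ ≤ (1 + 13 * (KX * B) * ρ) ^ 3 := le_self_pow₀ h2 (by norm_num)
    have h4 : 1 ≤ Cs * d * D :=
      one_le_mul_of_one_le_of_one_le (one_le_mul_of_one_le_of_one_le hCs hdr) hDr
    calc ρ ≤ 1 * (1 + 13 * (KX * B) * ρ) ^ 3 := by linarith
      _ ≤ Cs * d * D * (1 + 13 * (KX * B) * ρ) ^ 3 :=
        mul_le_mul_of_nonneg_right h4 (by positivity)
  have hD8 : (D : ℝ) ≤ 2 ^ 8 * N := (le_self_pow₀ hDr (by norm_num)).trans h8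
  have h5 : 26 * ρ ≤ Real.exp (N / 2) := by
    calc 26 * ρ ≤ 26 * (K' * (D : ℝ) ^ (40 * g * d)) := by linarith
      _ ≤ 26 * (K' * (2 ^ 8 * N) ^ (40 * g * d)) := by gcongr
      _ = 26 * K' * (2 ^ 8) ^ (40 * g * d) * N ^ (40 * g * d) := by rw [mul_pow]; ring
      _ ≤ Real.exp (N / 2) := by rwa [show N / 2 = 1 / 2 * N by ring]
  rw [div_le_iff₀ (Real.exp_pos _), ← Real.exp_add]
  refine h5.trans (Real.exp_le_exp.2 ?_)
  linarith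

theorem x3_rho (g d lam nX C₂ D B : ℕ) (Kb cη : ℝ) (hKb : 1 ≤ Kb) (hcη : 0 < cη) (hD : 1 ≤ D)
    (hB : 1 ≤ B) (b2 : (B : ℝ) ^ (2 * nX) ≤ Kb * (D : ℝ) ^ (8 * g * d)) :
    C₂ * (D : ℝ) ^ (4 * g * d) / (cη / (B : ℝ) ^ (lam * nX)) ≤
      (⌈(C₂ : ℝ) * Kb ^ lam⌉₊ : ℝ) * (D : ℝ) ^ (4 * (g * (2 * lam + 1)) * d) /
        (cη / (B : ℝ) ^ (2 * nX)) := by
  have hDr : (1 : ℝ) ≤ D := by exact_mod_cast hD
  have hBr : (1 : ℝ) ≤ B := by exact_mod_cast hB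
  have hB0 : (0 : ℝ) < B := by linarith
  have hD0 : (0 : ℝ) < D := by linarith
  have h1 : (B : ℝ) ^ (lam * nX) ≤ Kb ^ lam * (D : ℝ) ^ (8 * g * d * lam) := by
    calc (B : ℝ) ^ (lam * nX) ≤ (B : ℝ) ^ (2 * nX * lam) :=
          pow_le_pow_right₀ hBr (by nlinarith [Nat.zero_le (lam * nX)])
      _ = ((B : ℝ) ^ (2 * nX)) ^ lam := by rw [pow_mul]
      _ ≤ (Kb * (D : ℝ) ^ (8 * g * d)) ^ lam := pow_le_pow_left₀ (by positivity) b2 lam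
      _ = _ := by rw [mul_pow, ← pow_mul]
  have h2 : (1 : ℝ) ≤ (B : ℝ) ^ (2 * nX) := one_le_pow₀ hBr
  rw [div_div_eq_mul_div, div_div_eq_mul_div]
  refine div_le_div_of_nonneg_right ?_ hcη.le
  have hKb0 : 0 ≤ Kb := by linarith
  calc C₂ * (D : ℝ) ^ (4 * g * d) * (B : ℝ) ^ (lam * nX)
      ≤ C₂ * (D : ℝ) ^ (4 * g * d) * (Kb ^ lam * (D : ℝ) ^ (8 * g * d * lam)) := by gcongr
    _ = (C₂ : ℝ) * Kb ^ lam * (D : ℝ) ^ (4 * (g * (2 * lam + 1)) * d) := by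
        have e1 : 4 * (g * (2 * lam + 1)) * d = 4 * g * d + 8 * g * d * lam := by ring
        rw [e1, pow_add]
        ring
    _ ≤ (⌈(C₂ : ℝ) * Kb ^ lam⌉₊ : ℝ) * (D : ℝ) ^ (4 * (g * (2 * lam + 1)) * d) := by
        gcongr
        exact Nat.le_ceil _
    _ ≤ _ := le_mul_of_one_le_right (by positivity) h2

theorem av_line2 (g κ t : ℕ) (hg : 0 < g) : ∃ E : ℕ, 1 ≤ E ∧ ∀ lm : ℕ, 1 ≤ lm →
    ∀ (N : ℕ) (k F : IntermediateField ℚ ℂ), k ≤ F → Algebra.trdeg ℚ F ≤ (t : Cardinal) → Clo F →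
      ∀ A : AV g N κ k, ∀ ρ : Fin g → ℂ, ρ ≠ 0 →
      ∀ (nX m' : ℕ) (x : Fin nX → ℂ) (y' : Fin m' → ℂ), E * lm ^ E ≤ nX → E * lm ^ E ≤ m' →
        Ms (lm * nX) x → Sep y' → ∃ (i : Fin nX) (j : Fin m'),
          ¬ A.rat ((x i * y' j) • ρ) ⊆ F := by
  obtain ⟨C₀, e₀, hC₀, hgap'⟩ := gap_u2 t
  obtain ⟨q, hqdef⟩ : ∃ q, q = 4 * κ + 2 := ⟨_, rfl⟩
  have hq : 2 ≤ q := by omega
  refine ⟨max (82 * q * (3 * g) * (⌈16 * (C₀ * (270 * (g : ℝ)) ^ e₀)⌉₊)) (e₀ + 1),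
    le_trans (by omega) (le_max_right _ _), ?_⟩
  intro lm hlm Nd k F hk hF hClo A ρ hρ nX m' x y' hnX' hm' hx hy'
  have hconst := x3_const g q e₀ lm C₀ hC₀ hg hlm
  obtain ⟨gg, hgg⟩ : ∃ gg, gg = g * (2 * lm + 1) := ⟨_, rfl⟩
  rw [← hgg] at hconst
  have hggg : g ≤ gg := by
    rw [hgg]
    exact Nat.le_mul_of_pos_right _ (by omega)
  have hgg1 : 0 < gg := by omega
  have hggr : (1 : ℝ) ≤ gg := by exact_mod_cast hgg1
  obtain ⟨Γ, hΓdef⟩ : ∃ Γ : ℝ, Γ = C₀ * (90 * (gg : ℝ)) ^ e₀ := ⟨_, rfl⟩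
  have hgap := hgap' (90 * gg) (by linarith)
  rw [← hΓdef] at hgap hconst
  have hΓ1 : 1 ≤ Γ := by
    rw [hΓdef]
    exact one_le_mul_of_one_le_of_one_le hC₀ (one_le_pow₀ (by linarith))
  set d : ℕ := ⌈16 * Γ⌉₊ with hd
  have hdΓ : 16 * Γ ≤ d := Nat.le_ceil _
  have hd1 : 1 ≤ d := by
    have h1 : (1 : ℝ) ≤ d := by linarith
    exact_mod_cast h1
  obtain ⟨m, hm⟩ : ∃ m, m = 82 * q * gg * d := ⟨_, rfl⟩
  rw [← hm] at hconst
  have hqgd : 1 ≤ q * gg * d := by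
    have : 0 < q * gg * d := by positivity
    omega
  have hm3 : m = 82 * (q * gg * d) := by
    rw [hm]
    ring
  have hm1 : 1 ≤ m := by omega
  have hmm' : m ≤ m' := hconst.trans hm'
  have hnX : 41 * q * g * d ≤ nX := by
    have h1 : 41 * q * g * d ≤ 41 * q * gg * d :=
      Nat.mul_le_mul_right _ (Nat.mul_le_mul_left _ hggg)
    have h2 : 41 * q * gg * d = 41 * (q * gg * d) := by ring
    have h3 := hconst.trans hnX'
    omega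
  by_contra hcon'
  push Not at hcon'
  obtain ⟨y, hydef⟩ : ∃ y : Fin m → ℂ, y = y' ∘ Fin.castLE hmm' := ⟨_, rfl⟩
  have hy : Sep y := by
    rw [hydef]
    exact sep_comp hy' _ (Fin.castLE_injective hmm')
  have hcon : ∀ (i : Fin nX) (j : Fin m), A.rat ((x i * y j) • ρ) ⊆ F := by
    intro i j
    rw [hydef]
    exact hcon' i _
  obtain ⟨lam, hlamF, hlam⟩ := exists_lam' A ρ hρ
  obtain ⟨ι, _, u, CR, huF, hCR, hrep⟩ := rep_final A F hk lam (hlamF F hClo)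
    (Fin nX × Fin m)
    (fun p => (x p.1 * y p.2) • ρ)
    (fun p => hcon p.1 p.2)
  rw [← hqdef] at hrep
  obtain ⟨Cs, C₁, C₂, C₃, ε', hCs, hC₁, hC₃, hε', hcore⟩ := core' A ρ lam hlam d
  obtain ⟨Cy, hCy, hσ₀⟩ := hy
  obtain ⟨cη, hcη, hnr⟩ := nr_exist2 A ρ d nX (lm * nX) x hx ε' hε'
  set KX : ℝ := (1 + ∑ k, ‖x k‖) * (1 + ‖ρ‖) with hKXdef
  have hKX : 1 ≤ KX := by
    have h1 : 0 ≤ ∑ k, ‖x k‖ := Finset.sum_nonneg fun _ _ => norm_nonneg _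
    exact one_le_mul_of_one_le_of_one_le (by linarith) (by linarith [norm_nonneg ρ])
  set Y : ℝ := 1 + ∑ j, ‖y j‖ with hYdef
  have hY : 1 ≤ Y := by
    have h1 : 0 ≤ ∑ j, ‖y j‖ := Finset.sum_nonneg fun _ _ => norm_nonneg _
    linarith
  set U : ℝ := 1 + ∑ i, ‖u i‖ with hUdef
  have hU : 1 ≤ U := by
    have h1 : 0 ≤ ∑ i, ‖u i‖ := Finset.sum_nonneg fun _ _ => norm_nonneg _
    linarith
  have hlU : 0 ≤ Real.log U := Real.log_nonneg hU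
  obtain ⟨Kb, hKb, hnub⟩ := nu_b g q d nX C₁ hg hq hd1 hnX hC₁
  obtain ⟨N1, hN1⟩ := nu_c q d m hq Kb CR KX Y Cs (Real.log U) hKb hCR hKX hY hCs hlU
  obtain ⟨N2, K', hK', hN2⟩ := nu_c2 gg q d m nX 0 ⌈(C₂ : ℝ) * Kb ^ lm⌉₊ hgg1 hq Kb KX Y Cs 1 cη
    hd1 hKb hKX hY hCs one_pos hcη
  obtain ⟨N7, hN7⟩ := x3_sigma gg d q K' (Cy * m) hK' (mul_nonneg hCy (Nat.cast_nonneg _))
  have h2m : (1 : ℝ) ≤ 2 ^ m := one_le_pow₀ (by norm_num)
  have h2d : (1 : ℝ) ≤ 2 ^ d := one_le_pow₀ (by norm_num)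
  have hKd : (1 : ℝ) ≤ 2 ^ m * 14 := by linarith
  obtain ⟨N3, hN3⟩ := ELT.nu_d (2 ^ m * 14) hKd
  obtain ⟨N4, hN4⟩ := nu_e gg hgg1 (Real.log U) (2 ^ m * 14) hlU hKd
  have hKf : (1 : ℝ) ≤ 2 ^ d + 2 ^ m + K' := by linarith
  obtain ⟨N5, hN5⟩ := nu_f gg d hgg1 (Real.log U) (2 ^ d + 2 ^ m + K') C₃ hlU hKf hC₃
  obtain ⟨N6, hN6⟩ := hgap F hF ι u huF
  obtain ⟨N, g0, g1, g2, g3, g4, g5, g6, g7⟩ : ∃ N : ℝ, 2 ≤ N ∧ N1 ≤ N ∧ N2 ≤ N ∧ N3 ≤ N ∧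
      N4 ≤ N ∧ N5 ≤ N ∧ N6 ≤ N ∧ N7 ≤ N :=
    ⟨max 2 (max N1 (max N2 (max N3 (max N4 (max N5 (max N6 N7)))))), by simp⟩
  obtain ⟨γ, hγ1, hγ2, u', hu', hGap⟩ := hN6 N g6
  obtain ⟨T, hT⟩ : ∃ T : ℝ, T = N ^ γ := ⟨_, rfl⟩
  have hN1' : (1 : ℝ) ≤ N := by linarith
  have hN0 : (0 : ℝ) ≤ N := by linarith
  have hNT : N ≤ T := by
    rw [hT]
    exact Real.self_le_rpow_of_one_le hN1' hγ1
  have hTΓ : T ≤ N ^ Γ := by
    rw [hT]
    exact Real.rpow_le_rpow_of_exponent_le hN1' hγ2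
  have hE : N ^ (90 * (gg : ℝ) * γ) = T ^ (90 * gg) := by
    rw [hT, mul_comm, Real.rpow_mul hN0]
    have h1 := Real.rpow_natCast (N ^ γ) (90 * gg)
    push_cast at h1
    exact h1
  rw [← hT] at hGap
  rw [hE] at hu'
  obtain ⟨D, S, S', hD1, hS1, hS'1, hSS', q1, q2, q3, q4, q5, q6, q7, q8⟩ :=
    nu_a gg q d m hgg1 hq hd1 hm Γ hdΓ N T g0 hNT hTΓ
  obtain ⟨B, hB1, b1, b2, b3⟩ := hnub D hD1
  obtain ⟨e, he, hNR⟩ := hnr (C₁ * D ^ 2) B b1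
  obtain ⟨c1, c2, c3⟩ := hN1 N g1 D S' B hD1 hS'1 hB1 q3 q8 b3
  have b2' : (B : ℝ) ^ (2 * nX) ≤ Kb * (D : ℝ) ^ (8 * gg * d) := by
    refine b2.trans (mul_le_mul_of_nonneg_left ?_ (by linarith))
    exact pow_le_pow_right₀ (by exact_mod_cast hD1)
      (Nat.mul_le_mul_right _ (Nat.mul_le_mul_left _ hggg))
  obtain ⟨c4, -, -, c7⟩ := hN2 N g2 D S' B hD1 hS'1 hB1 q3 q8 b3 b2' _ rfl
  set δ : ℝ := CR * (((B * S' : ℕ) : ℝ) + 1) ^ q with hδdef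
  have hδ : 0 ≤ δ := by
    have h1 : 0 ≤ CR := by linarith
    positivity
  have hBr : (1 : ℝ) ≤ B := by exact_mod_cast hB1
  have hS'r : (1 : ℝ) ≤ S' := by exact_mod_cast hS'1
  have hDr : (1 : ℝ) ≤ D := by exact_mod_cast hD1
  have hmr : (1 : ℝ) ≤ m := by exact_mod_cast hm1
  have hη : 0 < cη / (B : ℝ) ^ (lm * nX) := by positivity
  have hRep : ∀ (μ : Fin m → ℕ) (i : Fin d), ∃ Q : Fin 2 → MvPolynomial ι ℤ,
      (∀ j, μ j < S') → RepX A lam u δ ((∑ j, ((μ j : ℕ) : ℂ) * y j) •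
        ((∑ k, (e i k : ℂ) * x k) • ρ)) Q := by
    intro μ i
    by_cases hμ : ∀ j, μ j < S'
    · obtain ⟨Q, hQ⟩ := hrep (B * S') (fun p => e i p.1 * μ p.2)
        (fun p => Nat.mul_le_mul (he i p.1).le (hμ p.2).le)
      refine ⟨Q, fun _ => ?_⟩
      rw [← t7_sum]
      exact hQ
    · exact ⟨0, fun h => absurd h hμ⟩
  choose Q hQ using hRep
  obtain ⟨G₁, hG₁⟩ : ∃ G₁ : ℝ, G₁ = Cs * d * D * (1 + 13 * (KX * B) * (m * Y * S')) ^ 3 :=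
    ⟨_, rfl⟩
  obtain ⟨ρ₂, hρ₂⟩ : ∃ ρ₂ : ℝ, ρ₂ = m * Y * S' + (⌈(C₂ : ℝ) * Kb ^ lm⌉₊ : ℝ) *
    (D : ℝ) ^ (4 * gg * d) / (cη / (B : ℝ) ^ (2 * nX)) := ⟨_, rfl⟩
  obtain ⟨G₂, hG₂⟩ : ∃ G₂ : ℝ, G₂ = Cs * d * D * (1 + 13 * (KX * B) * ρ₂) ^ 3 := ⟨_, rfl⟩
  obtain ⟨H, hH⟩ : ∃ H : ℕ, H = ⌊Real.exp (N / 8)⌋₊ := ⟨_, rfl⟩
  rw [← hG₁] at c3
  rw [← hρ₂, ← hG₂] at c4
  have hHe : (H : ℝ) ≤ Real.exp (N / 8) := by
    rw [hH]
    exact Nat.floor_le (Real.exp_pos _).le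
  have hCs0 : 0 ≤ Cs := by linarith
  have hYS : 1 ≤ (m : ℝ) * Y * S' :=
    one_le_mul_of_one_le_of_one_le (one_le_mul_of_one_le_of_one_le hmr hY) hS'r
  have hρ₂1 : (m : ℝ) * Y * S' ≤ ρ₂ := by
    rw [hρ₂]
    have h1 : 0 ≤ (⌈(C₂ : ℝ) * Kb ^ lm⌉₊ : ℝ) * (D : ℝ) ^ (4 * gg * d) /
        (cη / (B : ℝ) ^ (2 * nX)) := by positivity
    linarith
  have hρ₂2 : C₂ * (D : ℝ) ^ (4 * g * d) / (cη / (B : ℝ) ^ (lm * nX)) ≤ ρ₂ := by
    have h1 := x3_rho g d lm nX C₂ D B Kb cη hKb hcη hD1 hB1 b2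
    rw [← hgg] at h1
    rw [hρ₂]
    linarith
  have hKX0 : 0 ≤ KX := by linarith
  have hG₁0 : 0 ≤ G₁ := by
    rw [hG₁]
    have : 0 ≤ (m : ℝ) * Y * S' := by linarith
    positivity
  have hG₂0 : 0 ≤ G₂ := by
    rw [hG₂]
    have : 0 ≤ ρ₂ := by linarith
    positivity
  have hσ1 : Real.exp (-(Cy * m * S')) ≤ 1 := by
    rw [Real.exp_le_one_iff]
    have : 0 ≤ Cy * m * (S' : ℝ) := by positivity
    linarith
  have hρ₂0 : 0 ≤ ρ₂ := by linarith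
  have hG₂' : Cs * d * D * (1 + 13 * (KX * B) * ρ₂) ^ 3 ≤ K' * (D : ℝ) ^ (40 * gg * d) := by
    rw [← hG₂]
    exact c4
  have c5 := hN7 N g7 D S' hD1 hS'1 q3 q8 (by omega) Cs KX ρ₂ B hρ₂0 hCs hKX hBr hd1 hG₂'
  have c6 : 26 * (m * Y * S') / Real.exp (-(Cy * m * S')) ≤ Real.exp N := by
    refine le_trans ?_ c5
    exact div_le_div_of_nonneg_right (by linarith) (Real.exp_pos _).le
  have hσ0' : 0 < Real.exp (-(Cy * m * S')) := by positivity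
  have ha0 : 0 ≤ (d : ℝ) * D * (δ * (1 + Real.log U)) := by positivity
  have hPH : (D : ℝ) ^ d * H ≤ Real.exp (N / 16) * Real.exp (N / 8) :=
    mul_le_mul c7 hHe (Nat.cast_nonneg _) (Real.exp_pos _).le
  have hPH2 : (D : ℝ) ^ d * H ≤ Real.exp (2 * N) := by
    refine hPH.trans ?_
    rw [← Real.exp_add]
    exact Real.exp_le_exp.2 (by linarith)
  refine hcore D m S S' H δ N T U (Real.exp (-T ^ (90 * gg))) (KX * B) Y
    (Real.exp (-(Cy * m * S'))) (cη / (B : ℝ) ^ (lm * nX)) (m * Y * S') ρ₂ G₁ G₂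
    (fun i => ∑ k, (e i k : ℂ) * x k) (fun j => y j) u u' Q
    hD1 hSS' (one_le_mul_of_one_le_of_one_le hKX hBr) ?_ hY ?_ hU ?_ ?_ (Real.exp_pos _).le hu'
    hδ hσ0' hσ1 ?_ (fun μ hμ i => hQ μ i hμ) hGap hη hNR hYS le_rfl hρ₂1 hρ₂2 hG₁ hG₂
    ?_ ?_ ?_ ?_ ?_
  · intro i
    rw [norm_smul]
    have h1 := s5_norm0 (e i) B (he i) fun k => x k
    have h2 : 0 ≤ 1 + ∑ k, ‖x k‖ := by
      have h3 : 0 ≤ ∑ k, ‖x k‖ := Finset.sum_nonneg fun _ _ => norm_nonneg _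
      linarith
    have h4 : 0 ≤ (1 + ∑ k, ‖x k‖) * (B : ℝ) := mul_nonneg h2 (Nat.cast_nonneg _)
    calc ‖∑ k, (e i k : ℂ) * x k‖ * ‖ρ‖
        ≤ ((1 + ∑ k, ‖x k‖) * B) * (1 + ‖ρ‖) :=
          mul_le_mul h1 (by linarith) (norm_nonneg _) h4
      _ = KX * B := by
          rw [hKXdef]
          ring
  · intro j
    have h1 := s5_le (fun j => y j) j
    rw [hYdef]
    linarith
  · intro i
    have h1 := s5_le u i
    rw [hUdef]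
    linarith
  · intro i
    have h1 := s5_le u i
    have h4 := hu' i
    have h5 : Real.exp (-T ^ (90 * gg)) ≤ 1 := by
      rw [Real.exp_le_one_iff]
      have : 0 ≤ T ^ (90 * gg) := by
        have : 0 ≤ T := by linarith
        positivity
      linarith
    have h6 : ‖u' i‖ ≤ ‖u' i - u i‖ + ‖u i‖ := by
      have h7 := norm_add_le (u' i - u i) (u i)
      rwa [sub_add_cancel] at h7
    rw [hUdef]
    linarith
  · intro l hl hlS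
    refine le_trans (Real.exp_le_exp.2 (neg_le_neg ?_)) (hσ₀ l hl)
    rw [mul_assoc]
    refine mul_le_mul_of_nonneg_left ?_ hCy
    have h1 : ∀ j, |((l j : ℤ) : ℝ)| ≤ (S' : ℝ) := fun j => by exact_mod_cast hlS j
    refine (Finset.sum_le_sum fun j _ => h1 j).trans (le_of_eq ?_)
    rw [Finset.sum_const, Finset.card_univ, Fintype.card_fin, nsmul_eq_mul]
  · linarith
  · have h1 : Real.exp (d * D * δ) ≤ Real.exp (N / 16) := Real.exp_le_exp.2 c2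
    refine (mul_le_mul hPH h1 (Real.exp_pos _).le (by positivity)).trans ?_
    rw [← Real.exp_add, ← Real.exp_add]
    exact Real.exp_le_exp.2 (by linarith)
  · have h1 := hN3 N g3 T hNT ((D : ℝ) ^ d) (d * D * (δ * (1 + Real.log U))) ((S : ℝ) ^ m) q1 c7
      (by positivity) (by linarith) ha0 (by linarith)
    rw [← hH] at h1
    exact h1
  · have h1 := hN4 N g4 T hNT (S ^ m) G₁ (d * D * δ) (d * D * (δ * (1 + Real.log U)))
      (26 * (m * Y * S') / (Real.exp (-(Cy * m * S')))) ((D : ℝ) ^ d * H)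
      (by push_cast; exact q4) (by push_cast; linarith) hG₁0 (by linarith) (by linarith)
      (by linarith) (by positivity) c6 (by positivity) hPH2
    push_cast at h1
    exact h1
  · have h1 := hN5 N g5 T hNT D (S' ^ m) G₂ (d * D * δ)
      (26 * ρ₂ / (Real.exp (-(Cy * m * S')))) ((D : ℝ) ^ d * H) hD1 q3 q1
      (by
        refine q2.trans (mul_le_mul_of_nonneg_right ?_ (by positivity))
        linarith)
      (by push_cast; exact q6)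
      (by
        push_cast
        refine q7.trans (mul_le_mul_of_nonneg_right ?_ (by positivity))
        linarith)
      hG₂0
      (c4.trans (mul_le_mul_of_nonneg_right (by linarith) (by positivity)))
      (by linarith)
      (by
        have : 0 ≤ ρ₂ := by linarith
        positivity) c5 (by positivity) hPH2
    push_cast at h1
    exact h1

end GAL
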