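import Pool.Agent.GALX.X3

set_option autoImplicit false

open LTD Module

namespace GAL

open GAV

/-! Linear algebra: a subgroup of small corank contains a product `x' y` (compare `ELT/F2a.lean`). -/

theorem x4_mult {M : Type} [AddCommGroup M] [Module ℚ M] (W : AddSubgroup M) (v : M)
    (hv : v ∈ Submodule.span ℚ (W : Set M)) : ∃ n : ℕ, 0 < n ∧ n • v ∈ W := by
  induction hv using Submodule.span_induction with
  | mem x hx => exact ⟨1, one_pos, by rw [one_smul]; exact hx⟩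
  | zero => exact ⟨1, one_pos, by rw [smul_zero]; exact W.zero_mem⟩
  | add x y _ _ hx hy =>
    obtain ⟨n, hn, hnx⟩ := hx
    obtain ⟨m, hm, hmy⟩ := hy
    refine ⟨n * m, Nat.mul_pos hn hm, ?_⟩
    rw [smul_add]
    refine W.add_mem ?_ ?_
    · rw [mul_comm, mul_smul]
      exact W.nsmul_mem hnx m
    · rw [mul_smul]
      exact W.nsmul_mem hmy n
  | smul q x _ hx =>
    obtain ⟨n, hn, hnx⟩ := hx
    refine ⟨q.den * n, Nat.mul_pos q.den_pos hn, ?_⟩
    have h1 : (q.den * n) • (q • x) = q.num • (n • x) := by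
      rw [← Nat.cast_smul_eq_nsmul ℚ, ← Int.cast_smul_eq_zsmul ℚ, ← Nat.cast_smul_eq_nsmul ℚ,
        smul_smul, smul_smul]
      congr 1
      push_cast
      have h2 : (q.den : ℚ) * q = q.num := by rw [mul_comm]; exact Rat.mul_den_eq_num q
      linear_combination (n : ℚ) * h2
    rw [h1]
    exact W.zsmul_mem hnx q.num

/-- The rational vectors `v` with `∑ v_j w_j ∈ W`. -/
def WD {D : ℕ} (w : Fin D → ℂ) (W : AddSubgroup ℂ) : AddSubgroup (Fin D → ℚ) where
  carrier := {v | ∑ j, (v j : ℂ) * w j ∈ W}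
  zero_mem' := by
    show ∑ j, (((0 : Fin D → ℚ) j : ℚ) : ℂ) * w j ∈ W
    simp
  add_mem' := by
    intro a b ha hb
    show ∑ j, (((a + b) j : ℚ) : ℂ) * w j ∈ W
    have h1 : ∑ j, (((a + b) j : ℚ) : ℂ) * w j = ∑ j, (a j : ℂ) * w j + ∑ j, (b j : ℂ) * w j := by
      rw [← Finset.sum_add_distrib]
      refine Finset.sum_congr rfl fun j _ => ?_
      rw [Pi.add_apply]
      push_cast
      ring
    rw [h1]
    exact W.add_mem ha hb
  neg_mem' := by
    intro a ha
    show ∑ j, (((-a) j : ℚ) : ℂ) * w j ∈ W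
    have h1 : ∑ j, (((-a) j : ℚ) : ℂ) * w j = -∑ j, (a j : ℂ) * w j := by
      rw [← Finset.sum_neg_distrib]
      refine Finset.sum_congr rfl fun j _ => ?_
      rw [Pi.neg_apply]
      push_cast
      ring
    rw [h1]
    exact W.neg_mem ha

theorem mem_WD {D : ℕ} (w : Fin D → ℂ) (W : AddSubgroup ℂ) (v : Fin D → ℚ) :
    v ∈ WD w W ↔ ∑ j, (v j : ℂ) * w j ∈ W := Iff.rfl

theorem ms_mono {κ κ' n : ℕ} {x : Fin n → ℂ} (hx : Ms κ x) (h : κ ≤ κ') : Ms κ' x := by
  obtain ⟨c, hc, hx⟩ := hx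
  refine ⟨c, hc, fun H hH l hl hlH => le_trans ?_ (hx H hH l hl hlH)⟩
  have hHr : (1 : ℝ) ≤ H := by exact_mod_cast hH
  exact div_le_div_of_nonneg_left hc.le (by positivity) (pow_le_pow_right₀ hHr h)

/-- Integral linear combinations. -/
theorem ms_comb {κ n n' : ℕ} {x : Fin n → ℂ} (hx : Ms κ x) (L : Fin n' → Fin n → ℤ)
    (hL : LinearIndependent ℚ fun k => fun i => (L k i : ℚ)) :
    Ms κ fun k => ∑ i, (L k i : ℂ) * x i := by
  obtain ⟨c, hc, hx⟩ := hx
  obtain ⟨B, hB⟩ : ∃ B : ℕ, B = 1 + ∑ k, ∑ i, (L k i).natAbs := ⟨_, rfl⟩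
  have hB1 : 1 ≤ B := by omega
  have hLB : ∀ i, ∑ k, |L k i| ≤ (B : ℤ) := by
    intro i
    rw [hB]
    push_cast
    have h1 : ∑ k, |L k i| ≤ ∑ k, ∑ i, |L k i| := Finset.sum_le_sum fun k _ =>
      Finset.single_le_sum (f := fun i => |L k i|) (fun _ _ => abs_nonneg _) (Finset.mem_univ i)
    linarith
  have hBr : (1 : ℝ) ≤ B := by exact_mod_cast hB1
  refine ⟨c / (B : ℝ) ^ κ, by positivity, fun H hH l hl hlH => ?_⟩
  have e1 : ∑ k, (l k : ℂ) * ∑ i, (L k i : ℂ) * x i =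
      ∑ i, ((∑ k, l k * L k i : ℤ) : ℂ) * x i := by
    have h1 : ∀ i, ((∑ k, l k * L k i : ℤ) : ℂ) * x i = ∑ k, (l k : ℂ) * ((L k i : ℂ) * x i) := by
      intro i
      push_cast
      rw [Finset.sum_mul]
      refine Finset.sum_congr rfl fun k _ => ?_
      ring
    simp only [h1, Finset.mul_sum]
    exact Finset.sum_comm
  rw [e1]
  have h2 := hx (B * H) (Nat.mul_pos hB1 hH) (fun i => ∑ k, l k * L k i) (by
    intro h0
    apply hl
    have h3 := Fintype.linearIndependent_iff.1 hL (fun k => (l k : ℚ)) (by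
      funext i
      have h4 : ∑ k, l k * L k i = 0 := congrFun h0 i
      rw [Finset.sum_apply]
      have h5 : ((∑ k, l k * L k i : ℤ) : ℚ) = 0 := by rw [h4]; simp
      push_cast at h5
      exact h5)
    funext k
    have h6 := h3 k
    exact_mod_cast h6) (by
    intro i
    refine (Finset.abs_sum_le_sum_abs _ _).trans ?_
    have h3 : ∑ k, |l k * L k i| ≤ ∑ k, (H : ℤ) * |L k i| := Finset.sum_le_sum fun k _ => by
      rw [abs_mul]
      exact mul_le_mul_of_nonneg_right (hlH k) (abs_nonneg _)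
    refine h3.trans ?_
    rw [← Finset.mul_sum]
    push_cast
    rw [mul_comm (B : ℤ)]
    exact mul_le_mul_of_nonneg_left (hLB i) (by positivity))
  refine le_trans (le_of_eq ?_) h2
  push_cast
  rw [mul_pow, div_div]

/-- The same for `Sep`. -/
theorem sep_comb {n n' : ℕ} {x : Fin n → ℂ} (hx : Sep x) (L : Fin n' → Fin n → ℤ)
    (hL : LinearIndependent ℚ fun k => fun i => (L k i : ℚ)) :
    Sep fun k => ∑ i, (L k i : ℂ) * x i := by
  obtain ⟨C, hC, hx⟩ := hx
  obtain ⟨B, hB⟩ : ∃ B : ℝ, B = ∑ k, ∑ i, |((L k i : ℤ) : ℝ)| := ⟨_, rfl⟩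
  have hB0 : 0 ≤ B := by
    rw [hB]
    exact Finset.sum_nonneg fun _ _ => Finset.sum_nonneg fun _ _ => abs_nonneg _
  refine ⟨C * B, mul_nonneg hC hB0, fun l hl => ?_⟩
  have e1 : ∑ k, (l k : ℂ) * ∑ i, (L k i : ℂ) * x i =
      ∑ i, ((∑ k, l k * L k i : ℤ) : ℂ) * x i := by
    have h1 : ∀ i, ((∑ k, l k * L k i : ℤ) : ℂ) * x i = ∑ k, (l k : ℂ) * ((L k i : ℂ) * x i) := by
      intro i
      push_cast
      rw [Finset.sum_mul]
      refine Finset.sum_congr rfl fun k _ => ?_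
      ring
    simp only [h1, Finset.mul_sum]
    exact Finset.sum_comm
  rw [e1]
  have h2 := hx (fun i => ∑ k, l k * L k i) (by
    intro h0
    apply hl
    have h3 := Fintype.linearIndependent_iff.1 hL (fun k => (l k : ℚ)) (by
      funext i
      have h4 : ∑ k, l k * L k i = 0 := congrFun h0 i
      rw [Finset.sum_apply]
      have h5 : ((∑ k, l k * L k i : ℤ) : ℚ) = 0 := by rw [h4]; simp
      push_cast at h5
      exact h5)
    funext k
    have h6 := h3 k
    exact_mod_cast h6)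
  refine le_trans (Real.exp_le_exp.2 (neg_le_neg ?_)) h2
  rw [mul_assoc]
  refine mul_le_mul_of_nonneg_left ?_ hC
  have h7 : ∀ i, |((∑ k, l k * L k i : ℤ) : ℝ)| ≤ ∑ k, |((l k : ℤ) : ℝ)| * |((L k i : ℤ) : ℝ)| := by
    intro i
    push_cast
    refine (Finset.abs_sum_le_sum_abs _ _).trans (le_of_eq ?_)
    refine Finset.sum_congr rfl fun k _ => ?_
    rw [abs_mul]
  refine (Finset.sum_le_sum fun i _ => h7 i).trans ?_
  rw [Finset.sum_comm, mul_comm B, Finset.sum_mul]
  refine Finset.sum_le_sum fun k _ => ?_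
  rw [← Finset.mul_sum]
  refine mul_le_mul_of_nonneg_left ?_ (abs_nonneg _)
  rw [hB]
  exact Finset.single_le_sum (f := fun k => ∑ i, |((L k i : ℤ) : ℝ)|)
    (fun _ _ => Finset.sum_nonneg fun _ _ => abs_nonneg _) (Finset.mem_univ k)

theorem sub_tuple {D n m : ℕ} (w : Fin D → ℂ) (x : Fin n → ℂ) (y : Fin m → ℂ)
    (hxy : ∀ i j, x i * y j ∈ Submodule.span ℚ (Set.range w)) (W : AddSubgroup ℂ) :
    ∃ (n' : ℕ) (L : Fin n' → Fin n → ℤ),
      n + m * finrank ℚ (Submodule.span ℚ (WD w W : Set (Fin D → ℚ))) ≤ n' + m * D ∧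
      (LinearIndependent ℚ fun k => fun i => (L k i : ℚ)) ∧
      ∀ k j, (∑ i, (L k i : ℂ) * x i) * y j ∈ W := by
  classical
  set V := Submodule.span ℚ (WD w W : Set (Fin D → ℚ)) with hV
  have hc : ∀ i j, ∃ c : Fin D → ℚ, ∑ l, (c l : ℂ) * w l = x i * y j := by
    intro i j
    obtain ⟨c, hc⟩ := (Submodule.mem_span_range_iff_exists_fun ℚ).1 (hxy i j)
    refine ⟨c, ?_⟩
    rw [← hc]
    refine Finset.sum_congr rfl fun l _ => ?_
    rw [Rat.smul_def]
  choose c hc using hc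
  -- the maps
  let φ : Fin m → (Fin n → ℚ) →ₗ[ℚ] (Fin D → ℚ) := fun j =>
    Fintype.linearCombination ℚ (fun i => c i j)
  have hφ : ∀ j v l, φ j v l = ∑ i, v i * c i j l := by
    intro j v l
    show (Fintype.linearCombination ℚ (fun i => c i j)) v l = _
    rw [Fintype.linearCombination_apply, Finset.sum_apply]
    rfl
  have hφw : ∀ j v, ∑ l, ((φ j v l : ℚ) : ℂ) * w l = (∑ i, (v i : ℂ) * x i) * y j := by
    intro j v
    have h1 : ∀ l, ((φ j v l : ℚ) : ℂ) * w l = ∑ i, (v i : ℂ) * ((c i j l : ℂ) * w l) := by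
      intro l
      rw [hφ]
      push_cast
      rw [Finset.sum_mul]
      refine Finset.sum_congr rfl fun i _ => ?_
      ring
    simp only [h1]
    rw [Finset.sum_comm, Finset.sum_mul]
    refine Finset.sum_congr rfl fun i _ => ?_
    rw [← Finset.mul_sum, hc]
    ring
  let Φ : (Fin n → ℚ) →ₗ[ℚ] (Fin m → (Fin D → ℚ) ⧸ V) :=
    LinearMap.pi fun j => V.mkQ ∘ₗ φ j
  have hfD : finrank ℚ (Fin D → ℚ) = D := by
    rw [Module.finrank_fintype_fun_eq_card, Fintype.card_fin]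
  have hfn : finrank ℚ (Fin n → ℚ) = n := by
    rw [Module.finrank_fintype_fun_eq_card, Fintype.card_fin]
  have hq := Submodule.finrank_quotient_add_finrank V
  rw [hfD] at hq
  have hrange : finrank ℚ (LinearMap.range Φ) ≤ m * finrank ℚ ((Fin D → ℚ) ⧸ V) := by
    refine (Submodule.finrank_le _).trans ?_
    rw [Module.finrank_pi_fintype, Finset.sum_const, Finset.card_univ, Fintype.card_fin,
      smul_eq_mul]
  have hrn := LinearMap.finrank_range_add_finrank_ker Φ
  rw [hfn] at hrn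
  -- the basis of the kernel
  let b : Fin (finrank ℚ (LinearMap.ker Φ)) → Fin n → ℚ := fun k =>
    (LinearMap.ker Φ).subtype (finBasis ℚ (LinearMap.ker Φ) k)
  have hb : LinearIndependent ℚ b :=
    (finBasis ℚ (LinearMap.ker Φ)).linearIndependent.map' _ (Submodule.ker_subtype _)
  have hbV : ∀ k j, φ j (b k) ∈ V := by
    intro k j
    have h1 : Φ (b k) = 0 := (finBasis ℚ (LinearMap.ker Φ) k).2
    have h2 := congrFun h1 j
    have h3 : V.mkQ (φ j (b k)) = 0 := h2
    rwa [Submodule.mkQ_apply, Submodule.Quotient.mk_eq_zero] at h3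
  choose e he0 he using fun k j => x4_mult (WD w W) _ (hbV k j)
  let N : ℕ := (∏ k, ∏ j, e k j) * ∏ k, ∏ i, (b k i).den
  have hN1 : 0 < ∏ k, ∏ j, e k j := Finset.prod_pos fun k _ => Finset.prod_pos fun j _ => he0 k j
  have hN2 : 0 < ∏ k, ∏ i, (b k i).den :=
    Finset.prod_pos fun k _ => Finset.prod_pos fun i _ => (b k i).den_pos
  have hN : 0 < N := Nat.mul_pos hN1 hN2
  have hdvd : ∀ k j, e k j ∣ N := fun k j =>
    ((Finset.dvd_prod_of_mem (fun j => e k j) (Finset.mem_univ j)).trans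
      (Finset.dvd_prod_of_mem (fun k => ∏ j, e k j) (Finset.mem_univ k))).trans
      (Dvd.intro _ rfl)
  have hdvd2 : ∀ k i, (b k i).den ∣ N := fun k i =>
    ((Finset.dvd_prod_of_mem (fun i => (b k i).den) (Finset.mem_univ i)).trans
      (Finset.dvd_prod_of_mem (fun k => ∏ i, (b k i).den) (Finset.mem_univ k))).trans
      (Dvd.intro_left _ rfl)
  have hNW : ∀ k j, N • φ j (b k) ∈ WD w W := by
    intro k j
    obtain ⟨c', hc'⟩ := hdvd k j
    rw [hc', mul_comm, mul_smul]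
    exact (WD w W).nsmul_mem (he k j) c'
  have hint : ∀ k i, ∃ z : ℤ, (z : ℚ) = N * b k i := by
    intro k i
    obtain ⟨c', hc'⟩ := hdvd2 k i
    refine ⟨c' * (b k i).num, ?_⟩
    rw [hc']
    push_cast
    have h2 : ((b k i).den : ℚ) * b k i = (b k i).num := by
      rw [mul_comm]
      exact Rat.mul_den_eq_num _
    rw [← h2]
    ring
  choose L hL using hint
  have hNQ : (N : ℚ) ≠ 0 := Nat.cast_ne_zero.2 hN.ne'
  have hLi : LinearIndependent ℚ fun k => fun i => (L k i : ℚ) := by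
    have h1 : (fun k => fun i => (L k i : ℚ)) = fun k => (Units.mk0 (N : ℚ) hNQ) • b k := by
      funext k i
      rw [hL]
      rfl
    rw [h1]
    exact hb.units_smul fun _ => Units.mk0 (N : ℚ) hNQ
  refine ⟨_, L, ?_, hLi, ?_⟩
  · have h1 : m * finrank ℚ ((Fin D → ℚ) ⧸ V) + m * finrank ℚ V = m * D := by
      rw [← mul_add, hq]
    omega
  · intro k j
    have h1 := (mem_WD w W _).1 (hNW k j)
    have h2 : ∑ l, (((N • φ j (b k)) l : ℚ) : ℂ) * w l = (∑ i, (L k i : ℂ) * x i) * y j := by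
      have h3 : N • φ j (b k) = φ j (fun i => (L k i : ℚ)) := by
        rw [← map_nsmul]
        congr 1
        funext i
        rw [hL, Pi.smul_apply, nsmul_eq_mul]
      rw [h3, hφw]
      congr 1
    rwa [h2] at h1

end GAL
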