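import Pool.Agent.GALX.X4
import Pool.Agent.GAL.T10
import Pool.Agent.ELT.F3
import Pool.Agent.LTD.SepL

set_option autoImplicit false

open LTD Module

namespace GAL

open GAV

/-! Rational points on a line, for general lattices (compare `GAL/T8.lean`, `GAL/T9.lean`, `GAL/T10.lean`,
`GAL/E7.lean`). -/

theorem ms_sep {κ n : ℕ} {x : Fin n → ℂ} (hx : Ms κ x) : Sep x := by
  obtain ⟨c, hc, hx⟩ := hx
  refine ⟨κ + max 0 (-Real.log c), by positivity, fun l hl => ?_⟩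
  obtain ⟨s, hs⟩ : ∃ s : ℕ, s = ∑ i, (l i).natAbs := ⟨_, rfl⟩
  have hs1 : 1 ≤ s := by
    by_contra h
    have h0 : ∑ i, (l i).natAbs = 0 := by omega
    apply hl
    funext i
    have h1 := (Finset.sum_eq_zero_iff.1 h0) i (Finset.mem_univ i)
    exact Int.natAbs_eq_zero.1 h1
  have hsr : (1 : ℝ) ≤ s := by exact_mod_cast hs1
  have hs2 : (s : ℝ) = ∑ i, |((l i : ℤ) : ℝ)| := by
    rw [hs, Nat.cast_sum]
    refine Finset.sum_congr rfl fun i _ => ?_
    rw [Nat.cast_natAbs, Int.cast_abs]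
  have h1 := hx s hs1 l hl (fun i => by
    have h2 : (l i).natAbs ≤ s := by
      rw [hs]
      exact Finset.single_le_sum (f := fun i => (l i).natAbs) (fun _ _ => Nat.zero_le _)
        (Finset.mem_univ i)
    rw [Int.abs_eq_natAbs]
    exact_mod_cast h2)
  rw [← hs2]
  refine le_trans ?_ h1
  have hspos : (0 : ℝ) < s := by linarith
  have e1 : c / (s : ℝ) ^ κ = Real.exp (Real.log c - κ * Real.log s) := by
    rw [Real.exp_sub, Real.exp_log hc, Real.exp_nat_mul, Real.exp_log hspos]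
  rw [e1]
  apply Real.exp_le_exp.2
  have h3 : Real.log s ≤ s := (Real.log_le_sub_one_of_pos hspos).trans (by linarith)
  have h4 : (κ : ℝ) * Real.log s ≤ κ * s := mul_le_mul_of_nonneg_left h3 (Nat.cast_nonneg _)
  have h5 : -Real.log c ≤ max 0 (-Real.log c) * s := by
    calc -Real.log c ≤ max 0 (-Real.log c) := le_max_right _ _
      _ ≤ max 0 (-Real.log c) * s := le_mul_of_one_le_right (le_max_left _ _) hsr
  nlinarith

/-- The numbers `ξ` with `exp_A(ξ ρ)` rational over `F`. -/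
def WA {g N κ : ℕ} {k : IntermediateField ℚ ℂ} (A : AV g N κ k) (F : IntermediateField ℚ ℂ)
    (hk : k ≤ F) (ρ : Fin g → ℂ) : AddSubgroup ℂ where
  carrier := {ξ | A.rat (ξ • ρ) ⊆ F}
  zero_mem' := by
    show A.rat ((0 : ℂ) • ρ) ⊆ F
    rw [zero_smul]
    exact rat_zero A F hk
  add_mem' := by
    intro a b ha hb
    show A.rat ((a + b) • ρ) ⊆ F
    have h0 : (a + b) • ρ = a • ρ - (0 - b • ρ) := by
      rw [zero_sub, sub_neg_eq_add, ← add_smul]
    rw [h0]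
    exact rat_sub A F hk ha (rat_sub A F hk (rat_zero A F hk) hb)
  neg_mem' := by
    intro a ha
    show A.rat ((-a) • ρ) ⊆ F
    have h0 : (-a) • ρ = 0 - a • ρ := by
      rw [zero_sub, ← neg_smul]
    rw [h0]
    exact rat_sub A F hk (rat_zero A F hk) ha

/-- The numbers `ξ` with `e^{zξ} ∈ F`. -/
def WE (F : IntermediateField ℚ ℂ) (z : ℂ) : AddSubgroup ℂ where
  carrier := {ξ | Complex.exp (z * ξ) ∈ F}
  zero_mem' := by
    show Complex.exp (z * 0) ∈ F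
    rw [mul_zero, Complex.exp_zero]
    exact one_mem F
  add_mem' := by
    intro a b ha hb
    show Complex.exp (z * (a + b)) ∈ F
    rw [mul_add, Complex.exp_add]
    exact mul_mem ha hb
  neg_mem' := by
    intro a ha
    show Complex.exp (z * (-a)) ∈ F
    rw [mul_neg, Complex.exp_neg]
    exact inv_mem ha

theorem x5_arith {n m D f c n' M : ℕ} (hM : 2 * m ≤ M) (hc : c * M ≤ n) (hf : D < f + c)
    (hfD : f ≤ D) (hn' : n + m * f ≤ n' + m * D) : n ≤ 2 * n' ∧ m ≤ n' := by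
  obtain ⟨a, rfl⟩ : ∃ a, D = f + a := ⟨D - f, by omega⟩
  have h1 : a + 1 ≤ c := by omega
  have h2 : m * (a + 1) ≤ m * c := Nat.mul_le_mul_left _ h1
  have h3 : m * c * 2 ≤ n := by
    calc m * c * 2 = c * (2 * m) := by ring
      _ ≤ c * M := Nat.mul_le_mul_left _ hM
      _ ≤ n := hc
  have h4 : m * (f + a) = m * f + m * a := by ring
  have h5 : m * (a + 1) = m * a + m := by ring
  rw [h4] at hn'
  rw [h5] at h2
  constructor <;> omega

theorem line_sub2 (g κ t : ℕ) : ∃ E : ℕ, 1 ≤ E ∧ ∀ lm : ℕ, 1 ≤ lm →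
    ∀ (N : ℕ) (k F : IntermediateField ℚ ℂ) (hk : k ≤ F), Algebra.trdeg ℚ F ≤ (t : Cardinal) →
      Clo F → ∀ A : AV g N κ k, ∀ ρ : Fin g → ℂ, ρ ≠ 0 →
      ∀ (n m' D : ℕ) (x : Fin n → ℂ) (y : Fin m' → ℂ) (w : Fin D → ℂ), E * lm ^ E ≤ m' →
        Ms (lm * n) x → Sep y → (∀ i j, x i * y j ∈ Submodule.span ℚ (Set.range w)) →
        finrank ℚ (Submodule.span ℚ (WD w (WA A F hk ρ) : Set (Fin D → ℚ))) +
          n / (E * lm ^ E) ≤ D := by
  rcases Nat.eq_zero_or_pos g with hg0 | hg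
  · subst hg0
    refine ⟨1, le_refl 1, fun lm hlm N k F hk hF hclo A ρ hρ => ?_⟩
    exact absurd (Subsingleton.elim ρ 0) hρ
  obtain ⟨E₁, hE₁, h⟩ := av_line2 g κ t hg
  have h2E : 1 ≤ 2 ^ E₁ := Nat.one_le_pow _ _ (by norm_num)
  refine ⟨2 * E₁ * 2 ^ E₁, ?_, fun lm hlm N k F hk hF hclo A ρ hρ n m' D x y w hm' hx hy hxy => ?_⟩
  · have : 0 < 2 * E₁ * 2 ^ E₁ := by positivity
    omega
  obtain ⟨m, hm⟩ : ∃ m, m = E₁ * (2 * lm) ^ E₁ := ⟨_, rfl⟩
  have hM : 2 * m ≤ 2 * E₁ * 2 ^ E₁ * lm ^ (2 * E₁ * 2 ^ E₁) := by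
    have h1 : lm ^ E₁ ≤ lm ^ (2 * E₁ * 2 ^ E₁) := by
      refine Nat.pow_le_pow_right hlm ?_
      have h3 : E₁ * 1 ≤ 2 * E₁ * 2 ^ E₁ := by nlinarith
      omega
    calc 2 * m = 2 * E₁ * 2 ^ E₁ * lm ^ E₁ := by rw [hm, mul_pow]; ring
      _ ≤ _ := Nat.mul_le_mul_left _ h1
  have hmm : m ≤ m' := by omega
  by_contra hcon
  push Not at hcon
  obtain ⟨n', L, h1, h2, h3⟩ := sub_tuple w x (y ∘ Fin.castLE hmm) (fun i j => hxy i _)
    (WA A F hk ρ)
  have hfD : finrank ℚ (Submodule.span ℚ (WD w (WA A F hk ρ) : Set (Fin D → ℚ))) ≤ D := by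
    refine (Submodule.finrank_le _).trans ?_
    rw [Module.finrank_fintype_fun_eq_card, Fintype.card_fin]
  obtain ⟨h4, h5⟩ := x5_arith hM (Nat.div_mul_le_self _ _) hcon hfD h1
  have h6 : Ms (2 * lm * n') fun k => ∑ i, (L k i : ℂ) * x i := by
    refine ms_mono (ms_comb hx L h2) ?_
    calc lm * n ≤ lm * (2 * n') := Nat.mul_le_mul_left _ h4
      _ = 2 * lm * n' := by ring
  obtain ⟨i, j, hij⟩ := h (2 * lm) (by omega) N k F hk hF hclo A ρ hρ n' m
    (fun k => ∑ i, (L k i : ℂ) * x i) (y ∘ Fin.castLE hmm) (by rw [← hm]; exact h5) (by rw [← hm]) h6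
    (sep_comp hy _ (Fin.castLE_injective hmm))
  exact hij (h3 i j)

theorem exp_sub2 (t : ℕ) : ∃ m : ℕ, 1 ≤ m ∧ ∀ F : IntermediateField ℚ ℂ,
    Algebra.trdeg ℚ F ≤ (t : Cardinal) → ∀ z : ℂ, z ≠ 0 →
      ∀ (n m' D : ℕ) (x : Fin n → ℂ) (y : Fin m' → ℂ) (w : Fin D → ℂ), m ≤ m' →
        Sep x → Sep y → (∀ i j, x i * y j ∈ Submodule.span ℚ (Set.range w)) →
        finrank ℚ (Submodule.span ℚ (WD w (WE F z) : Set (Fin D → ℚ))) + n / (2 * m) ≤ D := by
  obtain ⟨m, hm, hltd⟩ := ltd t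
  refine ⟨m, hm, fun F hF z hz n m' D x y w hmm hx hy hxy => ?_⟩
  by_contra hcon
  push Not at hcon
  obtain ⟨n', L, h1, h2, h3⟩ := sub_tuple w x (y ∘ Fin.castLE hmm) (fun i j => hxy i _)
    (WE F z)
  have hfD : finrank ℚ (Submodule.span ℚ (WD w (WE F z) : Set (Fin D → ℚ))) ≤ D := by
    refine (Submodule.finrank_le _).trans ?_
    rw [Module.finrank_fintype_fun_eq_card, Fintype.card_fin]
  obtain ⟨h4, h5⟩ := x5_arith (M := 2 * m) le_rfl (Nat.div_mul_le_self _ _) hcon hfD h1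
  have h6 : Sep fun i : Fin m => z * ((fun k => ∑ i, (L k i : ℂ) * x i) ∘ Fin.castLE h5) i :=
    sep_smul _ z hz (sep_comp (sep_comb hx L h2) _ (Fin.castLE_injective h5))
  obtain ⟨i, j, hij⟩ := hltd F hF _ _ h6 (sep_comp hy _ (Fin.castLE_injective hmm))
  apply hij
  have h7 := h3 (Fin.castLE h5 i) j
  have h8 : Complex.exp (z * ((∑ i', (L (Fin.castLE h5 i) i' : ℂ) * x i') *
    (y ∘ Fin.castLE hmm) j)) ∈ F := h7
  rw [← mul_assoc] at h8
  exact h8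

/-! Counting. -/

theorem box2 {D : ℕ} (w : Fin D → ℂ) (W : AddSubgroup ℂ) (c H : ℕ)
    (hc : finrank ℚ (Submodule.span ℚ (WD w W : Set (Fin D → ℚ))) + c ≤ D)
    (P : (Fin D → ℤ) → Prop)
    (hP : ∀ a b : Fin D → ℤ, P a → P b → ∑ j, ((a j : ℤ) : ℂ) * w j - ∑ j, ((b j : ℤ) : ℂ) * w j ∈ W) :
    Set.ncard {a : Fin D → ℤ | (∀ j, |a j| ≤ (H : ℤ)) ∧ P a} ≤ (2 * H + 1) ^ (D - c) := by
  by_cases hne : ∃ a₀, P a₀
  · obtain ⟨a₀, ha₀⟩ := hne
    have hle := ELT.box_coset D H (Submodule.span ℚ (WD w W : Set (Fin D → ℚ))) a₀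
    have hfinite : ({a : Fin D → ℤ | (∀ j, |a j| ≤ (H : ℤ)) ∧
        (fun j => (((a j - a₀ j : ℤ)) : ℚ)) ∈
          Submodule.span ℚ (WD w W : Set (Fin D → ℚ))}).Finite := by
      refine Set.Finite.subset (s := {a : Fin D → ℤ | ∀ j, |a j| ≤ (H : ℤ)}) ?_ fun a ha => ha.1
      have h : {a : Fin D → ℤ | ∀ j, |a j| ≤ (H : ℤ)} =
          ((Fintype.piFinset fun _ : Fin D => Finset.Icc (-(H : ℤ)) H : Finset (Fin D → ℤ)) :
            Set (Fin D → ℤ)) := by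
        ext a
        simp [abs_le, Pi.le_def, forall_and]
      rw [h]
      exact Finset.finite_toSet _
    refine le_trans (Set.ncard_le_ncard ?_ hfinite)
      (le_trans hle (Nat.pow_le_pow_right (by omega) (by omega)))
    rintro a ⟨h3, h4⟩
    refine ⟨h3, Submodule.subset_span ?_⟩
    show (fun j => (((a j - a₀ j : ℤ)) : ℚ)) ∈ WD w W
    rw [mem_WD]
    have h5 : ∑ j, (((((a j - a₀ j : ℤ)) : ℚ) : ℚ) : ℂ) * w j =
        ∑ j, ((a j : ℤ) : ℂ) * w j - ∑ j, ((a₀ j : ℤ) : ℂ) * w j := by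
      rw [← Finset.sum_sub_distrib]
      refine Finset.sum_congr rfl fun j _ => ?_
      push_cast
      ring
    rw [h5]
    exact hP a a₀ h4 ha₀
  · have : {a : Fin D → ℤ | (∀ j, |a j| ≤ (H : ℤ)) ∧ P a} = ∅ := by
      refine Set.eq_empty_of_forall_notMem fun a ha => hne ⟨a, ha.2⟩
    rw [this, Set.ncard_empty]
    exact Nat.zero_le _

theorem slice2 (h D c H : ℕ) (hc : c ≤ D) (i : Fin h) (P : (Fin h → Fin D → ℤ) → Prop)
    (hP : ∀ a : Fin h → Fin D → ℤ, Set.ncard {b : Fin D → ℤ | (∀ j, |b j| ≤ (H : ℤ)) ∧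
      P (Function.update a i b)} ≤ (2 * H + 1) ^ (D - c)) :
    Set.ncard {a : Fin h → Fin D → ℤ | a ∈ z12_box h D H ∧ P a} ≤
      (2 * H + 1) ^ (h * D - c) := by
  classical
  obtain ⟨h, rfl⟩ : ∃ h', h = h' + 1 := ⟨h - 1, by have := i.2; omega⟩
  have hfin : (∀ a : Fin (h + 1) → Fin D → ℤ, ({b : Fin D → ℤ | (∀ j, |b j| ≤ (H : ℤ)) ∧
      P (Function.update a i b)}).Finite) := by
    intro a
    refine Set.Finite.subset (Finset.finite_toSet
      (Fintype.piFinset fun _ : Fin D => Finset.Icc (-(H : ℤ)) H)) ?_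
    rintro b ⟨hb, -⟩
    rw [Finset.mem_coe, Fintype.mem_piFinset]
    intro j
    rw [Finset.mem_Icc, ← abs_le]
    exact hb j
  have h1 : {a : Fin (h + 1) → Fin D → ℤ | a ∈ z12_box (h + 1) D H ∧ P a} =
      (((z12_box (h + 1) D H).filter P : Finset _) : Set (Fin (h + 1) → Fin D → ℤ)) := by
    ext a
    rw [Finset.mem_coe, Finset.mem_filter, Set.mem_ofPred_eq]
  rw [h1, Set.ncard_coe_finset]
  have hexp : (h + 1) * D - c = (D - c) + h * D := by
    rw [add_mul, one_mul]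
    omega
  rw [hexp, pow_add, ← t9_card h D H i]
  refine Finset.card_le_mul_card_image_of_maps_to (f := fun a => Function.update a i 0) ?_ _ ?_
  · intro a ha
    rw [Finset.mem_filter, z12_mem] at ha
    rw [Fintype.mem_piFinset]
    intro i'
    by_cases hi : i' = i
    · subst hi
      rw [if_pos rfl, Function.update_self, Finset.mem_singleton]
    · rw [if_neg hi, Function.update_of_ne hi, Fintype.mem_piFinset]
      intro j
      rw [Finset.mem_Icc, ← abs_le]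
      exact ha.1 i' j
  · intro a' _
    refine le_trans ?_ (hP a')
    rw [← Set.ncard_coe_finset]
    refine Set.ncard_le_ncard_of_injOn (fun a => a i) ?_ ?_ (hfin a')
    · intro a ha
      rw [Finset.mem_coe, Finset.mem_filter, Finset.mem_filter, z12_mem] at ha
      refine ⟨fun j => ha.1.1 i j, ?_⟩
      rw [← ha.2, Function.update_idem, Function.update_eq_self]
      exact ha.1.2
    · intro a ha b hb hab
      rw [Finset.mem_coe, Finset.mem_filter] at ha hb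
      have h3 := ha.2.trans hb.2.symm
      funext i'
      by_cases hi : i' = i
      · subst hi
        exact hab
      · have h4 := congrFun h3 i'
        simp only [Function.update_of_ne hi] at h4
        exact h4

theorem x5_ptl {E : Type} [AddCommGroup E] [Module ℂ E] {h D : ℕ} (r : E) (ρ : Fin h → E)
    (w : Fin D → ℂ) (i : Fin h) (a : Fin h → Fin D → ℤ) (b b' : Fin D → ℤ) :
    (r + ∑ i', (∑ j, (((Function.update a i b) i' j : ℤ) : ℂ) * w j) • ρ i') -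
      (r + ∑ i', (∑ j, (((Function.update a i b') i' j : ℤ) : ℂ) * w j) • ρ i') =
      (∑ j, ((b j : ℤ) : ℂ) * w j - ∑ j, ((b' j : ℤ) : ℂ) * w j) • ρ i := by
  have h2 : ∀ c : Fin D → ℤ, r + ∑ i', (∑ j, (((Function.update a i c) i' j : ℤ) : ℂ) * w j) • ρ i' =
      (r + ∑ i' ∈ Finset.univ.erase i, (∑ j, ((a i' j : ℤ) : ℂ) * w j) • ρ i') +
        (∑ j, ((c j : ℤ) : ℂ) * w j) • ρ i := by
    intro c
    rw [← Finset.sum_erase_add _ _ (Finset.mem_univ i), Function.update_self, ← add_assoc]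
    congr 2
    refine Finset.sum_congr rfl fun i' hi' => ?_
    rw [Function.update_of_ne (Finset.ne_of_mem_erase hi')]
  rw [h2 b, h2 b', add_sub_add_left_eq_sub, ← sub_smul]

theorem line_count2 (g κ t : ℕ) : ∃ E : ℕ, 1 ≤ E ∧ ∀ lm : ℕ, 1 ≤ lm →
    ∀ (N : ℕ) (k F : IntermediateField ℚ ℂ), k ≤ F → Algebra.trdeg ℚ F ≤ (t : Cardinal) →
      Clo F → ∀ (A : AV g N κ k) (h : ℕ) (r : Fin g → ℂ) (ρ : Fin h → Fin g → ℂ), (∃ i, ρ i ≠ 0) →
      ∀ (n m' D : ℕ) (x : Fin n → ℂ) (y : Fin m' → ℂ) (w : Fin D → ℂ), E * lm ^ E ≤ m' →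
        Ms (lm * n) x → Sep y → (∀ i j, x i * y j ∈ Submodule.span ℚ (Set.range w)) →
        ∀ H : ℕ, Set.ncard {a : Fin h → Fin D → ℤ | a ∈ z12_box h D H ∧
          A.rat (ptl r ρ w a) ⊆ F} ≤ (2 * H + 1) ^ (h * D - n / (E * lm ^ E)) := by
  obtain ⟨E, hE, hls⟩ := line_sub2 g κ t
  refine ⟨E, hE, fun lm hlm N k F hk hF hclo A h r ρ hρ n m' D x y w hm' hx hy hxy H => ?_⟩
  obtain ⟨i, hi⟩ := hρ
  have h1 := hls lm hlm N k F hk hF hclo A (ρ i) hi n m' D x y w hm' hx hy hxy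
  refine slice2 h D _ H (by omega) i (fun a => A.rat (ptl r ρ w a) ⊆ F) fun a => ?_
  refine box2 w (WA A F hk (ρ i)) _ H h1
    (fun b => A.rat (ptl r ρ w (Function.update a i b)) ⊆ F) ?_
  intro b b' hb hb'
  show A.rat ((∑ j, ((b j : ℤ) : ℂ) * w j - ∑ j, ((b' j : ℤ) : ℂ) * w j) • ρ i) ⊆ F
  rw [← x5_ptl r ρ w i a b b']
  exact rat_sub A F hk hb hb'

theorem exp_cnt2 (t : ℕ) : ∃ m : ℕ, 1 ≤ m ∧ ∀ F : IntermediateField ℚ ℂ,
    Algebra.trdeg ℚ F ≤ (t : Cardinal) → ∀ (h : ℕ) (z : Fin h → ℂ) (r : ℂ), (∃ i, z i ≠ 0) →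
      ∀ (n m' D : ℕ) (x : Fin n → ℂ) (y : Fin m' → ℂ) (w : Fin D → ℂ), m ≤ m' →
        Sep x → Sep y → (∀ i j, x i * y j ∈ Submodule.span ℚ (Set.range w)) → ∀ H : ℕ,
        Set.ncard {a : Fin h → Fin D → ℤ | a ∈ z12_box h D H ∧
          Complex.exp (r + ∑ i, (∑ j, ((a i j : ℤ) : ℂ) * w j) * z i) ∈ F} ≤
            (2 * H + 1) ^ (h * D - n / (2 * m)) := by
  obtain ⟨m, hm, hs⟩ := exp_sub2 t
  refine ⟨m, hm, fun F hF h z r hz n m' D x y w hm' hx hy hxy H => ?_⟩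
  obtain ⟨i, hi⟩ := hz
  have h1 := hs F hF (z i) hi n m' D x y w hm' hx hy hxy
  refine slice2 h D _ H (by omega) i
    (fun a => Complex.exp (r + ∑ i, (∑ j, ((a i j : ℤ) : ℂ) * w j) * z i) ∈ F) fun a => ?_
  refine box2 w (WE F (z i)) _ H h1 (fun b => Complex.exp (r + ∑ i',
    (∑ j, (((Function.update a i b) i' j : ℤ) : ℂ) * w j) * z i') ∈ F) ?_
  intro b b' hb hb'
  show Complex.exp (z i * (∑ j, ((b j : ℤ) : ℂ) * w j - ∑ j, ((b' j : ℤ) : ℂ) * w j)) ∈ F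
  have h3 := x5_ptl r z w i a b b'
  simp only [smul_eq_mul] at h3
  rw [mul_comm (z i), ← h3, Complex.exp_sub]
  exact div_mem hb hb'

end GAL
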