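import Pool.Agent.GALX.X5
import Pool.Agent.GAL.U6
import Pool.Agent.GAL.U7

set_option autoImplicit false

open LTD Module

namespace GAL

open GAV

/-! Ports of `GAL/U6.lean`, `GAL/U7.lean`, `GAL/U8.lean` for general lattices. -/

/-- The `ℚ`-space spanned by `w_1, …, w_D` contains the products `x_i y_j`, `i ≤ n`, `j ≤ m`, of numbers `x_i` with the
measure of linear independence `c / H^(lm n)` and of numbers `y_j` with the condition `Sep`. -/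
def Lat (lm n m : ℕ) {D : ℕ} (w : Fin D → ℂ) : Prop :=
  ∃ (x : Fin n → ℂ) (y : Fin m → ℂ), Ms (lm * n) x ∧ Sep y ∧
    ∀ i j, x i * y j ∈ Submodule.span ℚ (Set.range w)

/-- The same with the condition `Sep`. -/
def LatS (n m : ℕ) {D : ℕ} (w : Fin D → ℂ) : Prop :=
  ∃ (x : Fin n → ℂ) (y : Fin m → ℂ), Sep x ∧ Sep y ∧
    ∀ i j, x i * y j ∈ Submodule.span ℚ (Set.range w)

theorem lat_latS {lm n m D : ℕ} {w : Fin D → ℂ} (h : Lat lm n m w) : LatS n m w := by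
  obtain ⟨x, y, hx, hy, hxy⟩ := h
  exact ⟨x, y, ms_sep hx, hy, hxy⟩

theorem count_A2 (g κ T : ℕ) : ∃ E : ℕ, 1 ≤ E ∧ ∀ lm : ℕ, 1 ≤ lm →
    ∀ (N : ℕ) (k F : IntermediateField ℚ ℂ),
    k ≤ F → Algebra.trdeg ℚ F ≤ (T : Cardinal) → Clo F → ∀ (A : AV g N κ k) (h : ℕ)
      (ρ : Fin h → Fin g → ℂ) (r : Fin g → ℂ) (n m' D : ℕ) (w : Fin D → ℂ), E * lm ^ E ≤ m' →
        Lat lm n m' w → ∀ (H : ℕ)
      (SA : AddSubgroup (Fin g → ℂ)), (toGV A).ZC (SA : Set (Fin g → ℂ)) →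
        (∃ i, ρ i ∉ TT SA) →
        Set.ncard {a : Fin h → Fin D → ℤ | a ∈ z12_box h D H ∧
          ∀ z, z ∈ (toGV A).V F (ptl r ρ w a) ↔
            z - ptl r ρ w a ∈ SA} ≤
          (2 * H + 1) ^ (h * D - n / (E * lm ^ E)) := by
  obtain ⟨E, hE, hcount⟩ := line_count2 g κ T
  refine ⟨E, hE, ?_⟩
  intro lm hlm N k F hk hT hF A h ρ r n m' D w hm' ⟨x, y, hx, hy, hxy⟩ H SA hSA hi
  obtain ⟨T₁, hc, hT₁⟩ := compl A (TT SA) (TT_rat A SA hSA)
  let P : (Fin g → ℂ) →ₗ[ℂ] (Fin g → ℂ) :=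
    T₁.subtype.comp (Submodule.projectionOnto T₁ (TT SA) hc.symm)
  have hP1 : ∀ x, P x ∈ T₁ := fun x => (Submodule.projectionOnto T₁ (TT SA) hc.symm x).2
  have hPT : ∀ x, P x = 0 ↔ x ∈ TT SA := by
    intro x
    rw [← Submodule.projectionOnto_apply_eq_zero_iff hc.symm]
    constructor
    · intro h0
      exact Subtype.ext h0
    · intro h0
      show ((Submodule.projectionOnto T₁ (TT SA) hc.symm x : T₁) : Fin g → ℂ) = 0
      rw [h0]
      rfl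
  have hP2 : ∀ x, x - P x ∈ TT SA := by
    intro x
    rw [← hPT, map_sub]
    have h1 : P (P x) = P x := by
      show ((Submodule.projectionOnto T₁ (TT SA) hc.symm
        ((Submodule.projectionOnto T₁ (TT SA) hc.symm x : T₁) : Fin g → ℂ) : T₁) :
          Fin g → ℂ) = ((Submodule.projectionOnto T₁ (TT SA) hc.symm x : T₁) : Fin g → ℂ)
      rw [Submodule.projectionOnto_apply_left]
    rw [h1, sub_self]
  have hlin : ∀ a : Fin h → Fin D → ℤ, P (ptl r ρ w a) =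
      ptl (P r) (fun i => P (ρ i)) w a := by
    intro a
    unfold ptl
    rw [map_add, map_sum]
    congr 1
    refine Finset.sum_congr rfl fun i _ => ?_
    rw [map_smul]
  have hi' : ∃ i, (fun i => P (ρ i)) i ≠ 0 := by
    obtain ⟨i, hi⟩ := hi
    refine ⟨i, ?_⟩
    intro h0
    exact hi ((hPT _).1 h0)
  refine le_trans (Set.ncard_le_ncard ?_ ?_) (hcount lm hlm N k F hk hT hF A h (P r)
    (fun i => P (ρ i)) hi' n m' D x y w hm' hx hy hxy H)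
  · rintro a ⟨ha, hV⟩
    refine ⟨ha, ?_⟩
    rw [← hlin]
    exact proj_rat A F hk hF T hT SA hSA T₁ hT₁ hc (ptl r ρ w a) hV _
      (hP1 _) (hP2 _)
  · exact (z12_box h D H).finite_toSet.subset fun a ha => ha.1

theorem count_T2 (M T : ℕ) : ∃ m : ℕ, 1 ≤ m ∧ ∀ (g s N κ μ : ℕ) (k F : IntermediateField ℚ ℂ),
    k ≤ F → Algebra.trdeg ℚ F ≤ (T : Cardinal) → Clo F → ∀ (G : SAV g s N κ M μ k) (h : ℕ)
      (ρ : Fin h → (Fin g → ℂ) × (Fin s → ℂ)) (r : (Fin g → ℂ) × (Fin s → ℂ))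
      (n m' D : ℕ) (w : Fin D → ℂ), m ≤ m' → LatS n m' w → ∀ (H : ℕ)
      (S : AddSubgroup ((Fin g → ℂ) × (Fin s → ℂ))) (SA : AddSubgroup (Fin g → ℂ)),
        G.toGV.ZC (S : Set ((Fin g → ℂ) × (Fin s → ℂ))) → (∃ i, ρ i ∉ TT S) →
        (∀ i, (ρ i).1 ∈ TT SA) →
        Set.ncard {a : Fin h → Fin D → ℤ | a ∈ z12_box h D H ∧
          (∀ z, z ∈ G.toGV.V F (ptl r ρ w a) ↔
            z - ptl r ρ w a ∈ S) ∧
          ∀ z, z ∈ (toGV G.A).V F (ptl r ρ w a).1 ↔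
            z - (ptl r ρ w a).1 ∈ SA} ≤
          (2 * H + 1) ^ (h * D - n / (2 * m)) := by
  obtain ⟨m, hm, hcnt⟩ := exp_cnt2 (T + (M + 1))
  refine ⟨m, hm, ?_⟩
  intro g s N κ μ k F hk ht hF G h ρ r n m' D w hm' ⟨x, y, hx, hy, hxy⟩ H S SA hS hρS hρA
  set A := {a : Fin h → Fin D → ℤ | a ∈ z12_box h D H ∧
          (∀ z, z ∈ G.toGV.V F (ptl r ρ w a) ↔
            z - ptl r ρ w a ∈ S) ∧
          ∀ z, z ∈ (toGV G.A).V F (ptl r ρ w a).1 ↔
            z - (ptl r ρ w a).1 ∈ SA} with hA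
  rcases A.eq_empty_or_nonempty with hAe | ⟨a₀, ha₀⟩
  · rw [hAe, Set.ncard_empty]
    exact Nat.zero_le _
  set v₀ := ptl r ρ w a₀ with hv₀
  obtain ⟨F', hFF, hF', ht', hmem'⟩ := clo_ratG G.toGV F T ht v₀
  have hrat : ∀ x ∈ G.toGV.rat v₀, x ∈ F' := fun x hx => (hmem' x).2
    (isAlgebraic_algebraMap (R := IntermediateField.adjoin F (G.toGV.rat v₀))
      ⟨x, IntermediateField.subset_adjoin F _ hx⟩)
  have hT : ∀ x ∈ TT SA, ∃ y ∈ TT S, y.1 = x := fun x hx =>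
    TT_proj G F hk hF T ht v₀ S hS (fun z hz => (ha₀.2.1 z).1 hz) SA ha₀.2.2 x hx
  obtain ⟨i, hi⟩ := hρS
  obtain ⟨t, htS, htρ⟩ := hT (ρ i).1 (hρA i)
  set u := (ρ i - t).2 with hu
  have h2 : ρ i - t = ((0 : Fin g → ℂ), u) := by
    refine Prod.ext ?_ rfl
    show (ρ i).1 - t.1 = 0
    rw [htρ, sub_self]
  have h3 : ∃ c : ℂ, ((0 : Fin g → ℂ), c • u) ∉ S := by
    by_contra hcon
    push Not at hcon
    apply hi
    have h4 : ρ i = ((0 : Fin g → ℂ), u) + t := by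
      rw [← h2, sub_add_cancel]
    rw [h4]
    refine (TT S).add_mem ?_ htS
    intro c
    have h5 : c • ((0 : Fin g → ℂ), u) = ((0 : Fin g → ℂ), c • u) := by
      refine Prod.ext ?_ rfl
      show c • (0 : Fin g → ℂ) = (0 : Fin g → ℂ)
      rw [smul_zero]
    rw [h5]
    exact hcon c
  obtain ⟨c, hc⟩ := h3
  obtain ⟨a, ha1, ha2⟩ := chars G S hS (c • u) hc
  have h6 : ∀ (d : ℂ) (u' : Fin s → ℂ), ∑ j, (a j : ℂ) * (d • u') j =
      d * ∑ j, (a j : ℂ) * u' j := by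
    intro d u'
    rw [Finset.mul_sum]
    refine Finset.sum_congr rfl fun j _ => ?_
    rw [Pi.smul_apply, smul_eq_mul]
    ring
  have h7 : ∑ j, (a j : ℂ) * u j ≠ 0 := by
    intro h0
    apply ha2
    rw [h6, h0, mul_zero, Complex.exp_zero]
  have h8 : ∀ u' : Fin s → ℂ, ((0 : Fin g → ℂ), u') ∈ TT S → ∑ j, (a j : ℂ) * u' j = 0 := by
    intro u' hu'
    by_contra h0
    have h9 := hu' (∑ j, (a j : ℂ) * u' j)⁻¹
    have h10 : (∑ j, (a j : ℂ) * u' j)⁻¹ • ((0 : Fin g → ℂ), u') =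
        ((0 : Fin g → ℂ), (∑ j, (a j : ℂ) * u' j)⁻¹ • u') := by
      refine Prod.ext ?_ rfl
      show (∑ j, (a j : ℂ) * u' j)⁻¹ • (0 : Fin g → ℂ) = 0
      rw [smul_zero]
    rw [h10] at h9
    have h11 := ha1 _ h9
    rw [h6, inv_mul_cancel₀ h0] at h11
    have h12 : ‖Complex.exp 1‖ = Real.exp 1 := by
      rw [Complex.norm_exp, Complex.one_re]
    rw [h11, norm_one] at h12
    have h13 := Real.add_one_lt_exp (one_ne_zero (α := ℝ))
    linarith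
  obtain ⟨lam, hl1, hl2⟩ := lam_ex' g s (TT S) a h8
  have h14 : lam (ρ i) ≠ 0 := by
    have h15 : ρ i = ((0 : Fin g → ℂ), u) + t := by
      rw [← h2, sub_add_cancel]
    rw [h15, map_add, hl1 t htS, hl2, add_zero]
    exact h7
  -- the first components
  have hfst : ∀ b : Fin h → Fin D → ℤ, (ptl r ρ w b).1 =
      r.1 + ∑ i, (∑ j, ((b i j : ℤ) : ℂ) * w j) • (ρ i).1 := by
    intro b
    unfold ptl
    rw [Prod.fst_add, Prod.fst_sum]
    rfl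
  refine le_trans (Set.ncard_le_ncard ?_ ?_) (hcnt F' ht' h (fun i => lam (ρ i))
    (lam r - lam v₀) ⟨i, h14⟩ n m' D x y w hm' hx hy hxy H)
  · rintro a' ⟨hb, hv, -⟩
    refine ⟨hb, ?_⟩
    have hxA : (ptl r ρ w a' - v₀).1 ∈ TT SA := by
      rw [Prod.fst_sub, hv₀, hfst, hfst, add_sub_add_left_eq_sub]
      exact (TT SA).sub_mem (Submodule.sum_mem _ fun i _ => (TT SA).smul_mem _ (hρA i))
        (Submodule.sum_mem _ fun i _ => (TT SA).smul_mem _ (hρA i))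
    obtain ⟨t', ht'S, ht'v⟩ := hT _ hxA
    have h16 := u7_pt G F F' hk hFF hF' (T + (M + 1)) ht' S a ha1 lam hl1 hl2 _ v₀ t' hrat
      ht'S ht'v hv
    have h17 : lam (ptl r ρ w a') - lam v₀ =
        lam r - lam v₀ + ∑ i, (∑ j, ((a' i j : ℤ) : ℂ) * w j) * lam (ρ i) := by
      have h18 : lam (ptl r ρ w a') =
          lam r + ∑ i, (∑ j, ((a' i j : ℤ) : ℂ) * w j) * lam (ρ i) := by
        rw [ptl, map_add, map_sum]
        congr 1
        refine Finset.sum_congr rfl fun i _ => ?_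
        rw [map_smul, smul_eq_mul]
      rw [h18]
      ring
    rw [h17] at h16
    exact h16
  · exact (z12_box h D H).finite_toSet.subset fun a' ha' => ha'.1

theorem count_G2 (g κ M T : ℕ) : ∃ E : ℕ, 1 ≤ E ∧ ∀ lm : ℕ, 1 ≤ lm →
    ∀ (s N μ : ℕ) (k F : IntermediateField ℚ ℂ),
    k ≤ F → Algebra.trdeg ℚ F ≤ (T : Cardinal) → Clo F → ∀ (G : SAV g s N κ M μ k) (h : ℕ)
      (ρ : Fin h → (Fin g → ℂ) × (Fin s → ℂ)) (r : (Fin g → ℂ) × (Fin s → ℂ))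
      (n m' D : ℕ) (w : Fin D → ℂ), E * lm ^ E ≤ m' → Lat lm n m' w → ∀ (H : ℕ)
      (S : AddSubgroup ((Fin g → ℂ) × (Fin s → ℂ))) (SA : AddSubgroup (Fin g → ℂ)),
        G.toGV.ZC (S : Set ((Fin g → ℂ) × (Fin s → ℂ))) → (toGV G.A).ZC (SA : Set (Fin g → ℂ)) →
        (∃ i, ρ i ∉ TT S) →
        Set.ncard {a : Fin h → Fin D → ℤ | a ∈ z12_box h D H ∧
          (∀ z, z ∈ G.toGV.V F (ptl r ρ w a) ↔
            z - ptl r ρ w a ∈ S) ∧
          ∀ z, z ∈ (toGV G.A).V F (ptl r ρ w a).1 ↔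
            z - (ptl r ρ w a).1 ∈ SA} ≤
          (2 * H + 1) ^ (h * D - n / (E * lm ^ E)) := by
  obtain ⟨E₁, hE₁, hA⟩ := count_A2 g κ T
  obtain ⟨m₂, hm₂, hT'⟩ := count_T2 M T
  obtain ⟨E, hEd⟩ : ∃ E, E = max E₁ (2 * m₂) := ⟨_, rfl⟩
  have hE1 : E₁ ≤ E := by omega
  have hE2 : 2 * m₂ ≤ E := by omega
  refine ⟨E, by omega, ?_⟩
  intro lm hlm s N μ k F hk hT hF G h ρ r n m' D w hm' hL H S SA hS hSA hi
  have hle1 : E₁ * lm ^ E₁ ≤ E * lm ^ E :=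
    Nat.mul_le_mul hE1 (Nat.pow_le_pow_right hlm hE1)
  have hle2 : 2 * m₂ ≤ E * lm ^ E :=
    hE2.trans (Nat.le_mul_of_pos_right _ (Nat.pow_pos (by omega)))
  have hpow : ∀ q, q ≤ E * lm ^ E → 1 ≤ q →
      (2 * H + 1) ^ (h * D - n / q) ≤ (2 * H + 1) ^ (h * D - n / (E * lm ^ E)) := by
    intro q hq h1
    refine Nat.pow_le_pow_right (by omega) ?_
    exact Nat.sub_le_sub_left (Nat.div_le_div_left hq h1) _
  by_cases hc : ∃ i, (ρ i).1 ∉ TT SA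
  · have h1 := hA lm hlm N k F hk hT hF G.A h (fun i => (ρ i).1) r.1 n m' D w (hle1.trans hm') hL H
      SA hSA hc
    refine le_trans (Set.ncard_le_ncard ?_ ?_) (le_trans h1 (hpow _ hle1 ?_))
    rotate_left 2
    · exact Nat.mul_pos hE₁ (Nat.pow_pos (by omega))
    · rintro a ⟨ha, -, hV⟩
      refine ⟨ha, ?_⟩
      have hfst : (ptl r ρ w a).1 =
          ptl r.1 (fun i => (ρ i).1) w a := by
        unfold ptl
        rw [Prod.fst_add, Prod.fst_sum]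
        rfl
      rw [← hfst]
      exact hV
    · exact (z12_box h D H).finite_toSet.subset fun a ha => ha.1
  · push Not at hc
    exact le_trans (hT' g s N κ μ k F hk hT hF G h ρ r n m' D w (by omega) (lat_latS hL) H S SA hS hi hc)
      (hpow _ hle2 (by omega))

end GAL
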