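import Pool.Agent.GALX.X6
import Pool.Agent.GAL.U11

set_option autoImplicit false

open LTD Module

namespace GAL

open GAV

/-! Ports of `GAL/U10.lean`, `GAL/U11.lean` for general lattices. -/

theorem claimS2 {g s N κ M μ : ℕ} {k : IntermediateField ℚ ℂ} (G : SAV g s N κ M μ k) {h D : ℕ}
    (c : ℕ) (hcD : c ≤ D)
    (r : (Fin g → ℂ) × (Fin s → ℂ)) (ρ : Fin h → (Fin g → ℂ) × (Fin s → ℂ)) (w : Fin D → ℂ) (H : ℕ)
    (δ₀ : ℕ) (hδ₀ : G.toGV.GenDim ρ δ₀) (m₀ T : ℕ) (hm₀ : 1 ≤ m₀)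
    (hH : ∀ F : IntermediateField ℚ ℂ, k ≤ F → Algebra.trdeg ℚ F ≤ (T : Cardinal) → Clo F →
      ∀ (S : AddSubgroup ((Fin g → ℂ) × (Fin s → ℂ))) (SA : AddSubgroup (Fin g → ℂ)),
        G.toGV.ZC (S : Set ((Fin g → ℂ) × (Fin s → ℂ))) → (toGV G.A).ZC (SA : Set (Fin g → ℂ)) →
        (∃ i, ρ i ∉ TT S) →
        Set.ncard {a : Fin h → Fin D → ℤ | a ∈ z12_box h D H ∧
          (∀ z, z ∈ G.toGV.V F (ptl r ρ w a) ↔ z - ptl r ρ w a ∈ S) ∧
          ∀ z, z ∈ (toGV G.A).V F (ptl r ρ w a).1 ↔ z - (ptl r ρ w a).1 ∈ SA} ≤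
          (2 * H + 1) ^ (h * D - c / m₀)) :
    ∀ δ t : ℕ, δ ≤ δ₀ → t + 2 * (M + 1) * δ ≤ T → ∀ F : IntermediateField ℚ ℂ, k ≤ F →
      Algebra.trdeg ℚ F ≤ (t : Cardinal) → Clo F →
        Set.ncard {a : Fin h → Fin D → ℤ | a ∈ z12_box h D H ∧
          rk F (G.toGV.rat (ptl r ρ w a)) < δ} ≤
          2 ^ (h * D + 2 + 2 * δ) * (2 * H + 1) ^ (h * D - c / (4 ^ δ * m₀)) := by
  classical
  intro δ
  induction δ with
  | zero =>
    intro t _ _ F _ _ _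
    have h1 : {a : Fin h → Fin D → ℤ | a ∈ z12_box h D H ∧
          rk F (G.toGV.rat (ptl r ρ w a)) < 0} = ∅ := by
      rw [Set.eq_empty_iff_forall_notMem]
      rintro a ⟨_, ha⟩
      omega
    rw [h1, Set.ncard_empty]
    exact Nat.zero_le _
  | succ δ ih =>
    intro t hδ htT F hk ht hF
    obtain ⟨n, hnd⟩ : ∃ n, n = h * D := ⟨_, rfl⟩
    rcases Nat.eq_zero_or_pos n with hn0 | hn
    · -- the box has one element
      have h1 : Set.ncard {a : Fin h → Fin D → ℤ | a ∈ z12_box h D H ∧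
          rk F (G.toGV.rat (ptl r ρ w a)) < δ + 1} ≤ 1 := by
        have h2 := Set.ncard_le_ncard (s := {a : Fin h → Fin D → ℤ | a ∈ z12_box h D H ∧
          rk F (G.toGV.rat (ptl r ρ w a)) < δ + 1})
          (t := (z12_box h D H : Set (Fin h → Fin D → ℤ))) (fun a ha => ha.1)
          (z12_box h D H).finite_toSet
        rw [Set.ncard_coe_finset, z12_card, ← hnd, hn0, pow_zero] at h2
        exact h2
      exact h1.trans (Nat.mul_pos (pow_pos (by norm_num) _) (pow_pos (by omega) _))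
    have hh : 1 ≤ h := by
      rcases Nat.eq_zero_or_pos h with h0 | h0
      · rw [h0, zero_mul] at hnd
        omega
      · exact h0
    have hDn : ∀ m, c / m ≤ n := by
      intro m
      refine ((Nat.div_le_self _ _).trans hcD).trans ?_
      rw [hnd]
      exact Nat.le_mul_of_pos_left _ (by omega)
    have e1T : t + (M + 1) + 2 * (M + 1) * δ ≤ T := by
      refine le_trans ?_ htT
      have e : 2 * (M + 1) * (δ + 1) = 2 * (M + 1) * δ + 2 * (M + 1) := by ring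
      rw [e]
      omega
    have e2T : t + 2 * (M + 1) + 2 * (M + 1) * δ ≤ T := by
      refine le_trans ?_ htT
      have e : 2 * (M + 1) * (δ + 1) = 2 * (M + 1) * δ + 2 * (M + 1) := by ring
      rw [e]
      omega
    have e0T : t + 2 * (M + 1) * δ ≤ T := by
      refine le_trans ?_ e1T
      omega
    have htT' : Algebra.trdeg ℚ F ≤ (T : Cardinal) := ht.trans (by exact_mod_cast (by omega))
    have hB := ih t (by omega) e0T F hk ht hF
    have hH1 := hH F hk htT' hF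
    obtain ⟨v, hv⟩ : ∃ v : (Fin h → Fin D → ℤ) → (Fin g → ℂ) × (Fin s → ℂ), v = ptl r ρ w :=
      ⟨_, rfl⟩
    have hsub : ∀ a b b', v (a - (b - b')) = v a - (v b - v b') := by
      intro a b b'
      rw [hv]
      exact ptl_sub _ _ _ a b b'
    rw [← hv] at hB hH1 ⊢
    obtain ⟨S, hSd⟩ : ∃ S : Finset (Fin h → Fin D → ℤ), S = (z12_box h D H).filter fun a =>
        rk F (G.toGV.rat (v a)) = δ := ⟨_, rfl⟩
    have hSm : ∀ a, a ∈ S ↔ a ∈ z12_box h D H ∧ rk F (G.toGV.rat (v a)) = δ := by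
      intro a
      rw [hSd, Finset.mem_filter]
    have hS : S ⊆ z12_box h D H := fun a ha => ((hSm a).1 ha).1
    -- the fields
    have hE0 := fun a => clo_ratG G.toGV F t ht (v a)
    choose E₀ f1 f2 f3 f4 using hE0
    have hE1 := fun a b => clo2_ratG G.toGV F t ht (v a) (v b)
    choose E₁ e1 e2 e3 e4 using hE1
    have hT := triple' (z12_box h D H) S hS
      ((S ×ˢ S ×ˢ S).filter fun x => x.1 - (x.2.1 - x.2.2) ∈ S) (Finset.filter_subset _ _)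
      (fun a b => rk (E₀ a) (G.toGV.rat (v b)) < δ)
      (fun a b b' => rk (E₁ a b) (G.toGV.rat (v b')) < δ)
      (fun a b => ∃ (S' : AddSubgroup ((Fin g → ℂ) × (Fin s → ℂ)))
        (SA : AddSubgroup (Fin g → ℂ)),
        G.toGV.ZC (S' : Set ((Fin g → ℂ) × (Fin s → ℂ))) ∧
        (toGV G.A).ZC (SA : Set (Fin g → ℂ)) ∧ (∃ i, ρ i ∉ TT S') ∧
        ((∀ z, z ∈ G.toGV.V F (v a) ↔ z - v a ∈ S') ∧
          ∀ z, z ∈ (toGV G.A).V F (v a).1 ↔ z - (v a).1 ∈ SA) ∧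
        ((∀ z, z ∈ G.toGV.V F (v b) ↔ z - v b ∈ S') ∧
          ∀ z, z ∈ (toGV G.A).V F (v b).1 ↔ z - (v b).1 ∈ SA))
      (2 ^ (h * D + 2 + 2 * δ) * (2 * H + 1) ^ (h * D - c / (4 ^ δ * m₀)))
      ((2 * H + 1) ^ (h * D - c / m₀)) (by
        intro x hx
        rw [Finset.mem_filter, Finset.mem_product, Finset.mem_product] at hx
        obtain ⟨⟨x1, x2, x3⟩, x4⟩ := hx
        by_contra hcon
        rw [not_or, not_or] at hcon
        obtain ⟨c1, c2, c3⟩ := hcon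
        obtain ⟨-, r1⟩ := (hSm _).1 x1
        obtain ⟨-, r2⟩ := (hSm _).1 x2
        obtain ⟨-, r3⟩ := (hSm _).1 x3
        obtain ⟨-, r4⟩ := (hSm _).1 x4
        have g1 : δ ≤ rk (E₀ x.1) (G.toGV.rat (v x.2.1)) := not_lt.1 c1
        have g2 : δ ≤ rk (E₁ x.1 x.2.1) (G.toGV.rat (v x.2.2)) := not_lt.1 c2
        obtain ⟨S', SA, z1, z2, s0⟩ := stab2 G F (E₀ x.1) (E₁ x.1 x.2.1) hk hF t ht (v x.1)
          (v x.2.1) (v x.2.2) (v (x.1 - (x.2.1 - x.2.2))) (hsub _ _ _) (f4 _) (e4 _ _) δ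
          r1 r2 r3 r4 g1 g2
        have hne : ∃ i, ρ i ∉ TT S' := by
          by_contra hno
          push Not at hno
          have k1 : δ₀ ≤ finrank ℂ (TT S') := hδ₀ S' z1 fun c' i => hno i c'
          have k2 : finrank ℂ (TT S') ≤ rk F (G.toGV.rat (v x.1)) := by
            refine rk_ge_TT G.toGV F (v x.1) (TT S') fun y hy => ?_
            rw [(s0 _ (Or.inl rfl)).1, add_sub_cancel_left]
            have := hy 1
            rwa [one_smul] at this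
          omega
        exact c3 ⟨⟨S', SA, z1, z2, hne, s0 _ (Or.inl rfl), s0 _ (Or.inr (Or.inl rfl))⟩,
          ⟨S', SA, z1, z2, hne, s0 _ (Or.inl rfl), s0 _ (Or.inr (Or.inr rfl))⟩⟩)
      (by
        intro a _
        rw [hv]
        exact ih (t + (M + 1)) (by omega) e1T (E₀ a) (hk.trans (f1 a)) (f3 a) (f2 a))
      (by
        intro a _ b _
        rw [hv]
        exact ih (t + 2 * (M + 1)) (by omega) e2T (E₁ a b) (hk.trans (e1 a b)) (e3 a b) (e2 a b))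
      (by
        intro a _
        by_cases hex : ∃ (S' : AddSubgroup ((Fin g → ℂ) × (Fin s → ℂ)))
            (SA : AddSubgroup (Fin g → ℂ)),
            G.toGV.ZC (S' : Set ((Fin g → ℂ) × (Fin s → ℂ))) ∧
            (toGV G.A).ZC (SA : Set (Fin g → ℂ)) ∧ (∃ i, ρ i ∉ TT S') ∧
            ((∀ z, z ∈ G.toGV.V F (v a) ↔ z - v a ∈ S') ∧
              ∀ z, z ∈ (toGV G.A).V F (v a).1 ↔ z - (v a).1 ∈ SA)
        · obtain ⟨S', SA, g1, g2, g3, g4, g5⟩ := hex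
          refine le_trans (Set.ncard_le_ncard ?_
            ((z12_box h D H).finite_toSet.subset fun b hb => hb.1)) (hH1 S' SA g1 g2 g3)
          rintro b ⟨hb, S'', SA', s1, s2, s3, ⟨s4, s5⟩, ⟨s6, s7⟩⟩
          have hSS : S'' = S' := by
            ext z
            have i1 := s4 (v a + z)
            have i2 := g4 (v a + z)
            rw [add_sub_cancel_left] at i1 i2
            rw [← i1, i2]
          have hSA : SA' = SA := by
            ext z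
            have i1 := s5 ((v a).1 + z)
            have i2 := g5 ((v a).1 + z)
            rw [add_sub_cancel_left] at i1 i2
            rw [← i1, i2]
          rw [hSS] at s6
          rw [hSA] at s7
          exact ⟨hb, s6, s7⟩
        · have h1 : {b | b ∈ z12_box h D H ∧ (∃ (S' : AddSubgroup ((Fin g → ℂ) × (Fin s → ℂ)))
              (SA : AddSubgroup (Fin g → ℂ)),
              G.toGV.ZC (S' : Set ((Fin g → ℂ) × (Fin s → ℂ))) ∧
              (toGV G.A).ZC (SA : Set (Fin g → ℂ)) ∧ (∃ i, ρ i ∉ TT S') ∧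
              ((∀ z, z ∈ G.toGV.V F (v a) ↔ z - v a ∈ S') ∧
                ∀ z, z ∈ (toGV G.A).V F (v a).1 ↔ z - (v a).1 ∈ SA) ∧
              ((∀ z, z ∈ G.toGV.V F (v b) ↔ z - v b ∈ S') ∧
                ∀ z, z ∈ (toGV G.A).V F (v b).1 ↔ z - (v b).1 ∈ SA))} = ∅ := by
            rw [Set.eq_empty_iff_forall_notMem]
            rintro b ⟨_, S', SA, g1, g2, g3, g4, _⟩
            exact hex ⟨S', SA, g1, g2, g3, g4⟩
          show Set.ncard {b | b ∈ z12_box h D H ∧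
              (∃ (S' : AddSubgroup ((Fin g → ℂ) × (Fin s → ℂ))) (SA : AddSubgroup (Fin g → ℂ)),
              G.toGV.ZC (S' : Set ((Fin g → ℂ) × (Fin s → ℂ))) ∧
              (toGV G.A).ZC (SA : Set (Fin g → ℂ)) ∧ (∃ i, ρ i ∉ TT S') ∧
              ((∀ z, z ∈ G.toGV.V F (v a) ↔ z - v a ∈ S') ∧
                ∀ z, z ∈ (toGV G.A).V F (v a).1 ↔ z - (v a).1 ∈ SA) ∧
              ((∀ z, z ∈ G.toGV.V F (v b) ↔ z - v b ∈ S') ∧
                ∀ z, z ∈ (toGV G.A).V F (v b).1 ↔ z - (v b).1 ∈ SA))} ≤ _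
          rw [h1, Set.ncard_empty]
          exact Nat.zero_le _)
    have hx := z12_energy H S hS
    have hx2 := hx.trans (Nat.mul_le_mul_left _ hT)
    rw [z12_card, ← hnd] at hx2
    have hA1 : 1 ≤ 2 * H + 1 := by omega
    have hb0 : (2 * H + 1) ^ (n - c / m₀) ≤ 2 ^ (n + 2) * (2 * H + 1) ^ (n - c / m₀) :=
      Nat.le_mul_of_pos_left _ (pow_pos (by norm_num) _)
    have hb1 := hb0.trans (u10_bound n c m₀ 2 δ (2 * H + 1) hA1)
    have hx3 := num' n c (4 ^ δ * m₀) (2 + 2 * δ) H S.card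
      (2 ^ (n + 2 + 2 * δ) * (2 * H + 1) ^ (n - c / (4 ^ δ * m₀)))
      ((2 * H + 1) ^ (n - c / m₀)) hn (by omega) (hDn _)
      (by rw [← add_assoc]) hb1 hx2
    rw [← hnd] at hB ⊢
    -- the sum
    have hsplit : {a : Fin h → Fin D → ℤ | a ∈ z12_box h D H ∧
        rk F (G.toGV.rat (v a)) < δ + 1} ⊆
        {a : Fin h → Fin D → ℤ | a ∈ z12_box h D H ∧ rk F (G.toGV.rat (v a)) < δ} ∪
          (S : Set _) := by
      rintro a ⟨ha1, ha2⟩
      rcases Nat.lt_or_ge (rk F (G.toGV.rat (v a))) δ with h5 | h5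
      · exact Or.inl ⟨ha1, h5⟩
      · right
        rw [Finset.mem_coe, hSm]
        exact ⟨ha1, by omega⟩
    have hfin : ({a : Fin h → Fin D → ℤ | a ∈ z12_box h D H ∧ rk F (G.toGV.rat (v a)) < δ} ∪
          (S : Set _)).Finite :=
      ((z12_box h D H).finite_toSet.subset fun a ha => ha.1).union S.finite_toSet
    obtain ⟨W, hW⟩ : ∃ W, W = 2 ^ (n + (2 + 2 * δ)) * (2 * H + 1) ^ (n - c / (4 * (4 ^ δ * m₀))) :=
      ⟨_, rfl⟩
    have hw2 : 2 ^ (n + (2 + 2 * δ)) * (2 * H + 1) ^ (n - c / (4 ^ δ * m₀)) ≤ W := by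
      rw [hW]
      exact u10_bound' n c (4 ^ δ * m₀) (2 * H + 1) _ hA1
    have hw1 : 2 ^ (n + 2 + 2 * δ) * (2 * H + 1) ^ (n - c / (4 ^ δ * m₀)) ≤ W := by
      rw [add_assoc n 2]
      exact hw2
    have hw3 : S.card ≤ W := by
      rw [hW]
      exact hx3
    have hend : 2 ^ (n + 2 + 2 * (δ + 1)) * (2 * H + 1) ^ (n - c / (4 ^ (δ + 1) * m₀)) = 4 * W := by
      have ee : 4 ^ (δ + 1) * m₀ = 4 * (4 ^ δ * m₀) := by
        rw [pow_succ]
        ring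
      have ef : n + 2 + 2 * (δ + 1) = 2 + (n + (2 + 2 * δ)) := by ring
      rw [hW, ee, ef, pow_add 2 2]
      ring
    rw [hend]
    calc Set.ncard {a : Fin h → Fin D → ℤ | a ∈ z12_box h D H ∧
        rk F (G.toGV.rat (v a)) < δ + 1}
        ≤ _ := Set.ncard_le_ncard hsplit hfin
      _ ≤ _ := Set.ncard_union_le _ _
      _ ≤ W + W := by
          rw [Set.ncard_coe_finset]
          exact Nat.add_le_add (hB.trans hw1) hw3
      _ ≤ 4 * W := by omega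

theorem x7_zc_top {g s N κ M μ : ℕ} {k : IntermediateField ℚ ℂ} (G : SAV g s N κ M μ k) :
    G.toGV.ZC (((⊤ : AddSubgroup ((Fin g → ℂ) × (Fin s → ℂ))) :
      AddSubgroup ((Fin g → ℂ) × (Fin s → ℂ))) : Set ((Fin g → ℂ) × (Fin s → ℂ))) := by
  refine ⟨∅, ?_, ?_⟩
  · intro f hf
    exact absurd hf (Set.notMem_empty f)
  · intro z
    constructor
    · intro _ f hf
      exact absurd hf (Set.notMem_empty f)
    · intro _
      exact AddSubgroup.mem_top z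

theorem x7_tt_top (g s : ℕ) :
    finrank ℂ (TT (⊤ : AddSubgroup ((Fin g → ℂ) × (Fin s → ℂ)))) = g + s := by
  have h1 : TT (⊤ : AddSubgroup ((Fin g → ℂ) × (Fin s → ℂ))) = ⊤ := by
    rw [eq_top_iff]
    intro x _ c
    exact AddSubgroup.mem_top _
  rw [h1, finrank_top, Module.finrank_prod, Module.finrank_fin_fun, Module.finrank_fin_fun]

theorem sep_indep {n : ℕ} {x : Fin n → ℂ} (hx : Sep x) : LinearIndependent ℚ x := by
  obtain ⟨C, hC, hx⟩ := hx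
  rw [← LinearIndependent.iff_fractionRing ℤ ℚ, Fintype.linearIndependent_iff]
  intro l hl
  by_contra hne
  push Not at hne
  obtain ⟨i, hi⟩ := hne
  have h1 := hx l (fun h0 => hi (by rw [h0]; rfl))
  have h3 : ∑ i, (l i : ℂ) * x i = 0 := by
    rw [← hl]
    refine Finset.sum_congr rfl fun i _ => ?_
    rw [zsmul_eq_mul]
  rw [h3, norm_zero] at h1
  have := Real.exp_pos (-(C * ∑ i, |((l i : ℤ) : ℝ)|))
  linarith

theorem lat_le {n m D : ℕ} {w : Fin D → ℂ} (hm : 1 ≤ m) (h : LatS n m w) : n ≤ D := by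
  obtain ⟨x, y, hx, hy, hxy⟩ := h
  have hy0 : y ⟨0, hm⟩ ≠ 0 := (sep_indep hy).ne_zero _
  have hxi : LinearIndependent ℚ x := sep_indep hx
  have hxyi : LinearIndependent ℚ fun i => x i * y ⟨0, hm⟩ := by
    have h1 : LinearMap.ker (LinearMap.mulRight ℚ (y ⟨0, hm⟩)) = ⊥ := by
      rw [LinearMap.ker_eq_bot]
      intro a b hab
      exact mul_right_cancel₀ hy0 hab
    exact hxi.map' _ h1
  have h1 : Module.Finite ℚ (Submodule.span ℚ (Set.range w)) :=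
    Module.Finite.span_of_finite ℚ (Set.finite_range w)
  have h2 : LinearIndependent ℚ fun i => (⟨x i * y ⟨0, hm⟩, hxy i _⟩ :
      Submodule.span ℚ (Set.range w)) := by
    refine LinearIndependent.of_comp (Submodule.span ℚ (Set.range w)).subtype ?_
    exact hxyi
  have h3 := h2.fintype_card_le_finrank
  rw [Fintype.card_fin] at h3
  refine h3.trans ?_
  have h4 := finrank_range_le_card (R := ℚ) w
  rwa [Fintype.card_fin] at h4

/-- The lattice generated by `w` is good for the data: the bound for the number of points of small rank. -/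
def RkBd (g s N κ M μ t E Q n : ℕ) {D : ℕ} (w : Fin D → ℂ) : Prop :=
    ∀ k F : IntermediateField ℚ ℂ, k ≤ F → Algebra.trdeg ℚ F ≤ (t : Cardinal) → Clo F →
    ∀ (G : SAV g s N κ M μ k) (h : ℕ) (ρ : Fin h → (Fin g → ℂ) × (Fin s → ℂ)) (δ : ℕ),
    G.toGV.GenDim ρ δ → ∀ (r : (Fin g → ℂ) × (Fin s → ℂ)) (H : ℕ),
        Set.ncard {a : Fin h → Fin D → ℤ | (∀ i j, |a i j| ≤ (H : ℤ)) ∧
          rk F (G.toGV.rat (ptl r ρ w a)) < δ} ≤
          E * 2 ^ (h * D) * (2 * H + 1) ^ (h * D - n / Q)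

theorem rank_of_count {g s N κ M μ t m₀ E Q n D : ℕ} {w : Fin D → ℂ} (hm₀ : 1 ≤ m₀)
    (hE : 2 ^ (2 + 2 * (g + s)) ≤ E) (hQ : 4 ^ (g + s) * m₀ ≤ Q) (hnD : n ≤ D)
    (H₀ : ∀ k F : IntermediateField ℚ ℂ, k ≤ F →
      Algebra.trdeg ℚ F ≤ ((t + 2 * (M + 1) * (g + s) : ℕ) : Cardinal) → Clo F →
      ∀ (G : SAV g s N κ M μ k) (h : ℕ)
        (ρ : Fin h → (Fin g → ℂ) × (Fin s → ℂ)) (r : (Fin g → ℂ) × (Fin s → ℂ)) (H : ℕ)
        (S : AddSubgroup ((Fin g → ℂ) × (Fin s → ℂ))) (SA : AddSubgroup (Fin g → ℂ)),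
        G.toGV.ZC (S : Set ((Fin g → ℂ) × (Fin s → ℂ))) → (toGV G.A).ZC (SA : Set (Fin g → ℂ)) →
        (∃ i, ρ i ∉ TT S) →
        Set.ncard {a : Fin h → Fin D → ℤ | a ∈ z12_box h D H ∧
          (∀ z, z ∈ G.toGV.V F (ptl r ρ w a) ↔ z - ptl r ρ w a ∈ S) ∧
          ∀ z, z ∈ (toGV G.A).V F (ptl r ρ w a).1 ↔ z - (ptl r ρ w a).1 ∈ SA} ≤
          (2 * H + 1) ^ (h * D - n / m₀)) :
    RkBd g s N κ M μ t E Q n w := by
  intro k F hkF ht hF G h ρ δ hδ r H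
  have hδn : δ ≤ g + s := by
    have h1 := hδ ⊤ (x7_zc_top G) (fun c i => AddSubgroup.mem_top _)
    rwa [x7_tt_top] at h1
  have h1 := claimS2 G n hnD r ρ w H δ hδ m₀ (t + 2 * (M + 1) * (g + s)) hm₀
    (fun F' hk' ht' hF' S SA hS hSA hne => H₀ k F' hk' ht' hF' G h ρ r H S SA hS hSA hne)
    δ t le_rfl (Nat.add_le_add_left (Nat.mul_le_mul_left _ hδn) t) F hkF ht hF
  have h2 : {a : Fin h → Fin D → ℤ | (∀ i j, |a i j| ≤ (H : ℤ)) ∧
      rk F (G.toGV.rat (ptl r ρ w a)) < δ} =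
      {a : Fin h → Fin D → ℤ | a ∈ z12_box h D H ∧
        rk F (G.toGV.rat (ptl r ρ w a)) < δ} := by
    ext a
    constructor
    · rintro ⟨ha, hb⟩
      exact ⟨z12_mem.2 ha, hb⟩
    · rintro ⟨ha, hb⟩
      exact ⟨z12_mem.1 ha, hb⟩
  rw [h2]
  refine h1.trans ?_
  apply Nat.mul_le_mul
  · calc 2 ^ (h * D + 2 + 2 * δ) ≤ 2 ^ (2 + 2 * (g + s) + h * D) :=
          Nat.pow_le_pow_right (by norm_num) (by omega)
      _ = 2 ^ (2 + 2 * (g + s)) * 2 ^ (h * D) := by rw [pow_add]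
      _ ≤ E * 2 ^ (h * D) := Nat.mul_le_mul_right _ hE
  · apply Nat.pow_le_pow_right (by omega)
    have h3 : 4 ^ δ * m₀ ≤ Q :=
      (Nat.mul_le_mul_right _ (Nat.pow_le_pow_right (by norm_num) hδn)).trans hQ
    have h5 : n / Q ≤ n / (4 ^ δ * m₀) :=
      Nat.div_le_div_left h3 (Nat.mul_pos (by positivity) (by omega))
    omega

/-- General semi-abelian varieties. -/
theorem rkBd_gen (g s N κ M μ t : ℕ) : ∃ E : ℕ, 1 ≤ E ∧ ∀ lm : ℕ, 1 ≤ lm →
    ∀ (n m D : ℕ) (w : Fin D → ℂ), E * lm ^ E ≤ m → Lat lm n m w →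
      RkBd g s N κ M μ t E (E * lm ^ E) n w := by
  obtain ⟨E₀, hE₀, H₀⟩ := count_G2 g κ M (t + 2 * (M + 1) * (g + s))
  obtain ⟨E, hEd⟩ : ∃ E, E = max (4 ^ (g + s) * E₀) (2 ^ (2 + 2 * (g + s))) := ⟨_, rfl⟩
  have h4 : 1 ≤ 4 ^ (g + s) := Nat.one_le_pow _ _ (by norm_num)
  have hE1 : 4 ^ (g + s) * E₀ ≤ E := by omega
  have hE2 : 2 ^ (2 + 2 * (g + s)) ≤ E := by omega
  have hE01 : E₀ ≤ 4 ^ (g + s) * E₀ := Nat.le_mul_of_pos_left _ (by omega)
  refine ⟨E, by omega, ?_⟩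
  intro lm hlm n m D w hm hL
  obtain ⟨m₀, hm₀d⟩ : ∃ m₀, m₀ = E₀ * lm ^ E₀ := ⟨_, rfl⟩
  have hm₀ : 1 ≤ m₀ := by
    rw [hm₀d]
    exact Nat.mul_pos (by omega) (Nat.pow_pos (by omega))
  have hm₀E : 4 ^ (g + s) * m₀ ≤ E * lm ^ E := by
    rw [hm₀d, ← mul_assoc]
    exact Nat.mul_le_mul hE1 (Nat.pow_le_pow_right hlm (by omega))
  have hm₀m : m₀ ≤ m := by
    have : m₀ ≤ 4 ^ (g + s) * m₀ := Nat.le_mul_of_pos_left _ (by omega)
    omega
  have hnD : n ≤ D := lat_le (by omega) (lat_latS hL)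
  refine rank_of_count hm₀ hE2 hm₀E hnD ?_
  intro k F hk ht hF G h ρ r H S SA hS hSA hne
  rw [hm₀d]
  exact H₀ lm hlm s N μ k F hk ht hF G h ρ r n m D w (by rw [← hm₀d]; exact hm₀m) hL H S SA
        hS hSA hne

/-- Tori. -/
theorem rkBd_tor (s N κ M μ t : ℕ) : ∃ E : ℕ, 1 ≤ E ∧
    ∀ (n m D : ℕ) (w : Fin D → ℂ), E ≤ m → LatS n m w → RkBd 0 s N κ M μ t E E n w := by
  obtain ⟨m₂, hm₂, H₀⟩ := count_T2 M (t + 2 * (M + 1) * (0 + s))
  obtain ⟨E, hEd⟩ : ∃ E, E = max (4 ^ (0 + s) * (2 * m₂)) (2 ^ (2 + 2 * (0 + s))) := ⟨_, rfl⟩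
  have h4 : 1 ≤ 4 ^ (0 + s) := Nat.one_le_pow _ _ (by norm_num)
  have hE1 : 4 ^ (0 + s) * (2 * m₂) ≤ E := by omega
  have hE2 : 2 ^ (2 + 2 * (0 + s)) ≤ E := by omega
  have hE01 : 2 * m₂ ≤ 4 ^ (0 + s) * (2 * m₂) := Nat.le_mul_of_pos_left _ (by omega)
  refine ⟨E, by omega, ?_⟩
  intro n m D w hm hL
  have hnD : n ≤ D := lat_le (by omega) hL
  refine rank_of_count (m₀ := 2 * m₂) (by omega) hE2 hE1 hnD ?_
  intro k F hk ht hF G h ρ r H S SA hS hSA hne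
  refine H₀ 0 s N κ μ k F hk ht hF G h ρ r n m D w (by omega) hL H S SA hS hne fun i => ?_
  have h1 : (ρ i).1 = 0 := Subsingleton.elim _ _
  rw [h1]
  exact (TT SA).zero_mem

theorem sav_trdeg2 {g s N κ M μ t l E Q n D : ℕ} {w : Fin D → ℂ}
    (hmain : RkBd g s N κ M μ (t + l) E Q n w) :
    ∀ k F : IntermediateField ℚ ℂ, k ≤ F → Algebra.trdeg ℚ F ≤ (t : Cardinal) → ∀ R : Fin l → ℂ,
    ∀ (G : SAV g s N κ M μ k) (h : ℕ) (ρ : Fin h → (Fin g → ℂ) × (Fin s → ℂ)) (δ : ℕ),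
    G.toGV.GenDim ρ δ → ∀ (r : (Fin g → ℂ) × (Fin s → ℂ)) (H : ℕ),
        Set.ncard {a : Fin h → Fin D → ℤ | (∀ i j, |a i j| ≤ (H : ℤ)) ∧
          ¬ Algebra.trdeg F (IntermediateField.adjoin F (Set.range R)) + (δ : Cardinal) ≤
            Algebra.trdeg F (IntermediateField.adjoin F (Set.range R ∪
              G.toGV.rat (ptl r ρ w a)))} ≤
          E * 2 ^ (h * D) * (2 * H + 1) ^ (h * D - n / Q) := by
  intro k F hkF ht R G h ρ δ hδ r H
  obtain ⟨F₁, hFF₁, hclo, htr, hmem⟩ := LTD.clo_adjoin F t l ht R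
  have h1 := hmain k F₁ (hkF.trans hFF₁) htr hclo G h ρ δ hδ r H
  refine le_trans (Set.ncard_le_ncard ?_ ?_) h1
  · rintro a ⟨ha, hneg⟩
    refine ⟨ha, ?_⟩
    by_contra hcon
    have h3 := not_lt.1 hcon
    apply hneg
    obtain ⟨y, hy, hyi, -⟩ := rk_basis F₁
      (G.toGV.rat (ptl r ρ w a)) (Set.finite_range _)
    have h5 := ELT.f7_trdeg F F₁ hFF₁ (Set.range R)
      (by
        rintro z ⟨i, rfl⟩
        rw [hmem]
        exact isAlgebraic_algebraMap (⟨R i, IntermediateField.subset_adjoin F _ ⟨i, rfl⟩⟩ :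
          IntermediateField.adjoin F (Set.range R)))
      (fun i : Fin δ => y (Fin.castLE h3 i))
      (hyi.comp _ (Fin.castLE_injective h3))
      (G.toGV.rat (ptl r ρ w a)) (fun i => hy _)
    rwa [Fintype.card_fin] at h5
  · exact (z12_box h D H).finite_toSet.subset (fun a ha => z12_mem.2 ha.1)

theorem sav_Q12 {g s N κ M μ t E Q n D : ℕ} {w : Fin D → ℂ}
    (hmain' : RkBd g s N κ M μ (t + 0) E Q n w) :
    ∀ k F : IntermediateField ℚ ℂ, k ≤ F → Algebra.trdeg ℚ F ≤ (t : Cardinal) →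
    ∀ (G : SAV g s N κ M μ k) (h : ℕ) (ρ : Fin h → (Fin g → ℂ) × (Fin s → ℂ))
      (r : (Fin g → ℂ) × (Fin s → ℂ)), (∀ x ∈ G.toGV.rat r, IsAlgebraic ℚ x) → ∀ (H : ℕ),
        Set.ncard {a : Fin h → Fin D → ℤ | (∀ i j, |a i j| ≤ (H : ℤ)) ∧
          ¬ ((G.toGV.dd (ptl r ρ w a) : ℕ) : Cardinal) ≤
            Algebra.trdeg F (IntermediateField.adjoin F
              (G.toGV.rat (ptl r ρ w a)))} ≤
          E * 2 ^ (h * D) * (2 * H + 1) ^ (h * D - n / Q) := by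
  intro k F hkF ht G h ρ r hr H
  have hmain := sav_trdeg2 (l := 0) hmain'
  set 𝒟 : Set ℕ := {n | ∃ H' : AddSubgroup ((Fin g → ℂ) × (Fin s → ℂ)),
    G.toGV.ZC (H' : Set ((Fin g → ℂ) × (Fin s → ℂ))) ∧ (∀ (c : ℂ) i, c • ρ i ∈ H') ∧
      n = finrank ℂ (TT H')} with h𝒟
  have hne : 𝒟.Nonempty := ⟨_, ⊤, x7_zc_top G, fun c i => AddSubgroup.mem_top _, rfl⟩
  obtain ⟨H₀, hH₀, hc₀, hd₀⟩ := Nat.sInf_mem hne
  have hδ : G.toGV.GenDim ρ (sInf 𝒟) := by
    intro H' hH' hc'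
    exact Nat.sInf_le ⟨H', hH', hc', rfl⟩
  have h1 := hmain k F hkF ht Fin.elim0 G h ρ (sInf 𝒟) hδ r H
  refine le_trans (Set.ncard_le_ncard ?_ ?_) h1
  · rintro a ⟨ha, hneg⟩
    refine ⟨ha, fun hle => hneg ?_⟩
    have hdd : G.toGV.dd (ptl r ρ w a) ≤ sInf 𝒟 := by
      apply Nat.sInf_le
      refine ⟨H₀, r, hH₀, hr, ?_, hd₀⟩
      unfold ptl
      rw [add_sub_cancel_left]
      exact H₀.sum_mem (fun i _ => hc₀ _ i)
    have hrange : Set.range (Fin.elim0 : Fin 0 → ℂ) = ∅ := Set.range_eq_empty _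
    rw [hrange, Set.empty_union] at hle
    calc ((G.toGV.dd (ptl r ρ w a) : ℕ) : Cardinal)
        ≤ ((sInf 𝒟 : ℕ) : Cardinal) := by exact_mod_cast hdd
      _ ≤ Algebra.trdeg F (IntermediateField.adjoin F (∅ : Set ℂ)) + ((sInf 𝒟 : ℕ) : Cardinal) :=
        le_add_self
      _ ≤ _ := hle
  · exact (z12_box h D H).finite_toSet.subset (fun a ha => z12_mem.2 ha.1)

end GAL
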