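import Pool.Agent.GALX.X7

set_option autoImplicit false

open LTD Module

namespace GAL

open GAV

/-! The lattices `ℤ + ℤx + … + ℤx^(D-1)`. -/

/-- `1, x, …, x^(D-1)`. -/
def pw (x : ℂ) (D : ℕ) : Fin D → ℂ := fun i => x ^ (i : ℕ)

theorem pw_comp (x : ℂ) {n D : ℕ} (h : n ≤ D) : pw x n = pw x D ∘ Fin.castLE h := by
  funext i
  rfl

theorem pw_mul (x : ℂ) {n m D : ℕ} (h : n + m ≤ D) (i : Fin n) (j : Fin m) :
    pw x n i * pw x m j ∈ Submodule.span ℚ (Set.range (pw x D)) := by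
  apply Submodule.subset_span
  refine ⟨⟨i + j, by omega⟩, ?_⟩
  show x ^ ((i : ℕ) + (j : ℕ)) = x ^ (i : ℕ) * x ^ (j : ℕ)
  exact pow_add _ _ _

theorem pow_lat {lm D m : ℕ} (x : ℂ) (h : Ms (lm * D) (pw x D)) (hD : 2 * m ≤ D) :
    Lat (2 * lm) (D - m) m (pw x D) := by
  refine ⟨pw x (D - m), pw x m, ?_, ms_sep (κ := lm * D) ?_, pw_mul x (by omega)⟩
  · have h1 : Ms (lm * D) (pw x (D - m)) := by
      rw [pw_comp x (Nat.sub_le D m)]
      exact ms_comp h _ (Fin.castLE_injective _)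
    refine ms_mono h1 ?_
    calc lm * D ≤ lm * (2 * (D - m)) := Nat.mul_le_mul_left _ (by omega)
      _ = 2 * lm * (D - m) := by ring
  · rw [pw_comp x (show m ≤ D by omega)]
    exact ms_comp h _ (Fin.castLE_injective _)

theorem pow_latS {D m : ℕ} (x : ℂ) (h : Sep (pw x D)) (hD : 2 * m ≤ D) :
    LatS (D - m) m (pw x D) := by
  refine ⟨pw x (D - m), pw x m, ?_, ?_, pw_mul x (by omega)⟩
  · rw [pw_comp x (Nat.sub_le D m)]
    exact sep_comp h _ (Fin.castLE_injective _)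
  · rw [pw_comp x (show m ≤ D by omega)]
    exact sep_comp h _ (Fin.castLE_injective _)

theorem rkBd_mono {g s N κ M μ t E Q n E' Q' n' D : ℕ} {w : Fin D → ℂ}
    (h : RkBd g s N κ M μ t E Q n w) (hE : E ≤ E') (hQ : n' / Q' ≤ n / Q) :
    RkBd g s N κ M μ t E' Q' n' w := by
  intro k F hk ht hF G h' ρ δ hδ r H
  refine (h k F hk ht hF G h' ρ δ hδ r H).trans ?_
  exact Nat.mul_le_mul (Nat.mul_le_mul_right _ hE) (Nat.pow_le_pow_right (by omega) (by omega))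

theorem rkBd_triv {g s N κ M μ t E Q n D : ℕ} {w : Fin D → ℂ} (hE : 1 ≤ E) (hQ : n / Q = 0) :
    RkBd g s N κ M μ t E Q n w := by
  intro k F hk ht hF G h ρ δ hδ r H
  rw [hQ, Nat.sub_zero]
  have h1 := Set.ncard_le_ncard (s := {a : Fin h → Fin D → ℤ | (∀ i j, |a i j| ≤ (H : ℤ)) ∧
    rk F (G.toGV.rat (ptl r ρ w a)) < δ}) (t := (z12_box h D H : Set (Fin h → Fin D → ℤ)))
    (fun a ha => z12_mem.2 ha.1) (z12_box h D H).finite_toSet
  rw [Set.ncard_coe_finset, z12_card] at h1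
  refine h1.trans ?_
  exact Nat.le_mul_of_pos_left _ (Nat.mul_pos (by omega) (pow_pos (by norm_num) _))

theorem x8_div {D m Q : ℕ} (hm : 1 ≤ m) (hQ : 2 * m ≤ Q) (hD : 2 * m ≤ D) :
    D / Q ≤ (D - m) / m := by
  have h1 : D / Q ≤ D / (2 * m) := Nat.div_le_div_left hQ (by omega)
  refine h1.trans ?_
  obtain ⟨q, hq⟩ : ∃ q, q = D / (2 * m) := ⟨_, rfl⟩
  rw [← hq, Nat.le_div_iff_mul_le (by omega)]
  have h2 : q * (2 * m) ≤ D := by
    rw [hq]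
    exact Nat.div_mul_le_self _ _
  have h3 : 1 ≤ q := by
    rw [hq]
    exact (Nat.one_le_div_iff (by omega)).2 hD
  obtain ⟨q', rfl⟩ : ∃ q', q = q' + 1 := ⟨q - 1, by omega⟩
  have h4 : (q' + 1) * (2 * m) = 2 * (q' * m) + 2 * m := by ring
  have h5 : (q' + 1) * m = q' * m + m := by ring
  rw [h4] at h2
  rw [h5]
  have h6 : 0 ≤ q' * m := Nat.zero_le _
  omega

theorem pow_rkBd (g s N κ M μ t : ℕ) : ∃ E : ℕ, 1 ≤ E ∧ ∀ (lm D : ℕ) (x : ℂ), 1 ≤ lm →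
    (Ms (lm * D) (pw x D) ∨ (g = 0 ∧ Sep (pw x D))) →
      RkBd g s N κ M μ t E (E * lm ^ E) D (pw x D) := by
  obtain ⟨E₁, hE₁, h₁⟩ := rkBd_gen g s N κ M μ t
  obtain ⟨E₂, hE₂, h₂⟩ := rkBd_tor s N κ M μ t
  have h2E : 1 ≤ 2 ^ E₁ := Nat.one_le_pow _ _ (by norm_num)
  obtain ⟨E, hE⟩ : ∃ E, E = max (2 * (E₁ * 2 ^ E₁)) (2 * E₂) := ⟨_, rfl⟩
  have hE1 : 2 * (E₁ * 2 ^ E₁) ≤ E := by omega
  have hE11 : E₁ ≤ E₁ * 2 ^ E₁ := Nat.le_mul_of_pos_right _ (by omega)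
  have hE2 : 2 * E₂ ≤ E := by omega
  refine ⟨E, by omega, ?_⟩
  intro lm D x hlm hx
  have hlp : 1 ≤ lm ^ E := Nat.one_le_pow _ _ (by omega)
  rcases hx with hx | ⟨hg, hx⟩
  · obtain ⟨m, hm⟩ : ∃ m, m = E₁ * (2 * lm) ^ E₁ := ⟨_, rfl⟩
    have hm1 : 1 ≤ m := by
      rw [hm]
      exact Nat.mul_pos (by omega) (Nat.pow_pos (by omega))
    have hM : 2 * m ≤ E * lm ^ E := by
      calc 2 * m = 2 * (E₁ * 2 ^ E₁) * lm ^ E₁ := by rw [hm, mul_pow]; ring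
        _ ≤ E * lm ^ E := Nat.mul_le_mul hE1 (Nat.pow_le_pow_right hlm (by omega))
    by_cases hD : 2 * m ≤ D
    · have h3 := h₁ (2 * lm) (by omega) (D - m) m D (pw x D) (by rw [← hm]) (pow_lat x hx hD)
      rw [← hm] at h3
      exact rkBd_mono h3 (by omega) (x8_div hm1 hM hD)
    · exact rkBd_triv (by omega) (Nat.div_eq_of_lt (by omega))
  · subst hg
    have hM : 2 * E₂ ≤ E * lm ^ E := hE2.trans (Nat.le_mul_of_pos_right _ (by omega))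
    by_cases hD : 2 * E₂ ≤ D
    · have h3 := h₂ (D - E₂) E₂ D (pw x D) le_rfl (pow_latS x hx hD)
      exact rkBd_mono h3 (by omega) (x8_div hE₂ hM hD)
    · exact rkBd_triv (by omega) (Nat.div_eq_of_lt (by omega))

end GAL
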